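import Mathlib

/-! Special exponent of an odd perfect number: k + 1 divisible by 2310. -/

set_option autoImplicit false

namespace Pool.Agent.Lib.MP_4eb2ef_nt.Exp49

open ArithmeticFunction

/-- The divisor sum. -/
abbrev sg : ArithmeticFunction ℕ := ArithmeticFunction.sigma 1

lemma sg_perfect {N : ℕ} (h : Nat.Perfect N) : sg N = 2 * N := by
  have h0 : 0 < N := h.2
  have := (Nat.perfect_iff_sum_divisors_eq_two_mul h0).1 h
  rw [sigma_one_apply]
  exact this

/-- Divisors of a perfect number are not abundant; proper ones are deficient. -/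
lemma sg_dvd_lt {N d : ℕ} (h : Nat.Perfect N) (hd : d ∣ N) (hne : d ≠ N) : sg d < 2 * d := by
  have h0 : 0 < N := h.2
  obtain ⟨e, rfl⟩ := hd
  have hd0 : 0 < d := Nat.pos_of_mul_pos_right h0 |> fun _ => Nat.pos_of_ne_zero (by rintro rfl; simp at h0)
  have he0 : 0 < e := Nat.pos_of_ne_zero (by rintro rfl; simp at h0)
  have he1 : 1 < e := by
    rcases Nat.lt_or_ge 1 e with h1 | h1
    · exact h1
    · exfalso
      have : e = 1 := by omega
      subst this
      exact hne (by ring)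
  have hs : sg (d * e) = 2 * (d * e) := sg_perfect h
  have hlt : sg d * e + 1 ≤ sg (d * e) := by
    rw [sigma_one_apply, sigma_one_apply, Finset.sum_mul]
    have hinj : ∑ x ∈ d.divisors, x * e = ∑ y ∈ d.divisors.image (· * e), y := by
      rw [Finset.sum_image]
      intro a _ b _ hab
      exact Nat.eq_of_mul_eq_mul_right he0 hab
    rw [hinj]
    have hsub : insert 1 (d.divisors.image (· * e)) ⊆ (d * e).divisors := by
      intro y hy
      rw [Finset.mem_insert, Finset.mem_image] at hy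
      rw [Nat.mem_divisors]
      rcases hy with rfl | ⟨x, hx, rfl⟩
      · exact ⟨one_dvd _, h0.ne'⟩
      · exact ⟨Nat.mul_dvd_mul (Nat.dvd_of_mem_divisors hx) dvd_rfl, h0.ne'⟩
    have hnot : 1 ∉ d.divisors.image (· * e) := by
      intro hy
      obtain ⟨x, hx, hxe⟩ := Finset.mem_image.1 hy
      have hx0 : 0 < x := Nat.pos_of_mem_divisors hx
      have : e ≤ x * e := Nat.le_mul_of_pos_left e hx0
      omega
    calc ∑ y ∈ d.divisors.image (· * e), y + 1 = ∑ y ∈ insert 1 (d.divisors.image (· * e)), y := by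
          rw [Finset.sum_insert hnot, add_comm]
      _ ≤ _ := Finset.sum_le_sum_of_subset hsub
  rw [hs] at hlt
  by_contra hcon
  have h2 : 2 * d ≤ sg d := not_lt.1 hcon
  have := Nat.mul_le_mul_right e h2
  nlinarith

lemma not_dvd_of_big {N d : ℕ} (h : Nat.Perfect N) (hd : d ∣ N) (hs : 2 * d < sg d) : False := by
  by_cases hne : d = N
  · subst hne
    have := sg_perfect h
    omega
  · have := sg_dvd_lt h hd hne
    omega

/-- The shape of N. -/
structure Opn (N q k n : ℕ) : Prop where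
  odd : Odd N
  perf : Nat.Perfect N
  hq : q.Prime
  q4 : q % 4 = 1
  k4 : k % 4 = 1
  cop : Nat.Coprime q n
  eq : N = q ^ k * n ^ 2

variable {N q k n : ℕ}

/-- Forced primes. -/
lemma forced (h : Opn N q k n) {r : ℕ} (hr : r.Prime) (hr4 : r % 4 = 3) (hrk : r * (r - 1) ∣ k + 1) :
    r ∣ N := by
  have hqr : q ≠ r := by rintro rfl; have := h.q4; omega
  have hsum : r ∣ ∑ i ∈ Finset.range (k + 1), q ^ i := by
    have : Fact r.Prime := ⟨hr⟩
    rw [← (ZMod.natCast_eq_zero_iff _ _)]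
    push_cast
    by_cases h1 : (q : ZMod r) = 1
    · rw [h1]
      simp only [one_pow, Finset.sum_const, Finset.card_range, nsmul_eq_mul, mul_one]
      have : r ∣ k + 1 := (Dvd.intro _ rfl).trans hrk
      exact_mod_cast (ZMod.natCast_eq_zero_iff (k + 1) r).2 this
    · have hq0 : (q : ZMod r) ≠ 0 := by
        intro h0
        rw [ZMod.natCast_eq_zero_iff] at h0
        exact hqr ((Nat.prime_dvd_prime_iff_eq hr h.hq).1 h0).symm
      have hpow : (q : ZMod r) ^ (k + 1) = 1 := by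
        obtain ⟨c, hc⟩ := (Dvd.intro_left r rfl : (r - 1) ∣ r * (r - 1)).trans hrk
        rw [hc, pow_mul, ZMod.pow_card_sub_one_eq_one hq0, one_pow]
      have hg := geom_sum_mul (q : ZMod r) (k + 1)
      rw [hpow, sub_self] at hg
      rcases mul_eq_zero.1 hg with h2 | h2
      · exact h2
      · exact absurd (sub_eq_zero.1 h2) h1
  have hcop : Nat.Coprime (q ^ k) (n ^ 2) := Nat.Coprime.pow _ _ h.cop
  have hs : sg N = sg (q ^ k) * sg (n ^ 2) := by
    rw [h.eq]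
    exact isMultiplicative_sigma.map_mul_of_coprime hcop
  have h1 : r ∣ sg N := by
    rw [hs, sigma_one_apply_prime_pow h.hq]
    exact hsum.mul_right _
  rw [sg_perfect h.perf] at h1
  rcases (Nat.Prime.dvd_mul hr).1 h1 with h2 | h2
  · exfalso
    have := (Nat.prime_dvd_prime_iff_eq hr Nat.prime_two).1 h2
    omega
  · exact h2

lemma dvd_n (h : Opn N q k n) {r : ℕ} (hr : r.Prime) (hqr : r ≠ q) (hN : r ∣ N) : r ∣ n := by
  rw [h.eq] at hN
  rcases (Nat.Prime.dvd_mul hr).1 hN with h1 | h1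
  · exact absurd ((Nat.prime_dvd_prime_iff_eq hr h.hq).1 (hr.dvd_of_dvd_pow h1)) hqr
  · exact hr.dvd_of_dvd_pow h1

lemma sq_dvd (h : Opn N q k n) {r : ℕ} (hr : r.Prime) (hqr : r ≠ q) (hN : r ∣ N) : r ^ 2 ∣ N := by
  rw [h.eq]
  exact (pow_dvd_pow_of_dvd (dvd_n h hr hqr hN) 2).mul_left _

lemma two_le {k : ℕ} (hk : 2310 ∣ k + 1) : 2 ≤ k := by
  have := Nat.le_of_dvd (Nat.succ_pos k) hk
  omega

lemma sq_dvd2 (h : Opn N q k n) (hk : 2 ≤ k) {r : ℕ} (hr : r.Prime) (hN : r ∣ N) : r ^ 2 ∣ N := by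
  by_cases hqr : r = q
  · rw [h.eq, hqr]
    exact (pow_dvd_pow q hk).mul_right _
  · exact sq_dvd h hr hqr hN

lemma dich (h : Opn N q k n) {r : ℕ} (hr : r.Prime) (hqr : r ≠ q) (hN : r ∣ N) :
    r ^ 4 ∣ N ∨ sg (r ^ 2) ∣ 2 * N := by
  obtain ⟨m, hm⟩ := dvd_n h hr hqr hN
  by_cases hrm : r ∣ m
  · left
    have : r ^ 2 ∣ n := by rw [hm, pow_two]; exact Nat.mul_dvd_mul dvd_rfl hrm
    rw [h.eq]
    have h2 : (r ^ 2) ^ 2 ∣ n ^ 2 := pow_dvd_pow_of_dvd this 2
    rw [← pow_mul] at h2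
    exact h2.mul_left _
  · right
    have hN2 : N = r ^ 2 * (q ^ k * m ^ 2) := by rw [h.eq, hm]; ring
    have hc : Nat.Coprime (r ^ 2) (q ^ k * m ^ 2) := by
      apply Nat.Coprime.pow_left
      refine Nat.Coprime.mul_right ?_ ?_
      · exact Nat.Coprime.pow_right _ ((Nat.coprime_primes hr h.hq).2 hqr)
      · exact Nat.Coprime.pow_right _ ((Nat.Prime.coprime_iff_not_dvd hr).2 hrm)
    rw [← sg_perfect h.perf, hN2, isMultiplicative_sigma.map_mul_of_coprime hc]
    exact Dvd.intro _ rfl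

lemma s_pp (p i v : ℕ) (hp : p.Prime) (hv : ∑ j ∈ Finset.range (i + 1), p ^ j = v) :
    sg (p ^ i) = v := by
  rw [sigma_one_apply_prime_pow hp, hv]

lemma s32 : sg (3 ^ 2) = 13 := s_pp 3 2 13 (by norm_num) (by decide)
lemma s34 : sg (3 ^ 4) = 121 := s_pp 3 4 121 (by norm_num) (by decide)
lemma s72 : sg (7 ^ 2) = 57 := s_pp 7 2 57 (by norm_num) (by decide)
lemma s74 : sg (7 ^ 4) = 2801 := s_pp 7 4 2801 (by norm_num) (by decide)
lemma s112 : sg (11 ^ 2) = 133 := s_pp 11 2 133 (by norm_num) (by decide)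
lemma s114 : sg (11 ^ 4) = 16105 := s_pp 11 4 16105 (by norm_num) (by decide)
lemma s132 : sg (13 ^ 2) = 183 := s_pp 13 2 183 (by norm_num) (by decide)
lemma s192 : sg (19 ^ 2) = 381 := s_pp 19 2 381 (by norm_num) (by decide)
lemma sp (p : ℕ) (hp : p.Prime) : sg p = p + 1 := by
  have := sigma_one_apply_prime_pow (i := 1) hp
  rw [pow_one] at this
  rw [this, Finset.sum_range_succ, Finset.sum_range_one]
  simp [add_comm]

lemma big1 : 2 * (3 ^ 2 * (13 ^ 2 * (7 ^ 4 * 11 ^ 4))) < sg (3 ^ 2 * (13 ^ 2 * (7 ^ 4 * 11 ^ 4))) := by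
  rw [isMultiplicative_sigma.map_mul_of_coprime (by norm_num),
    isMultiplicative_sigma.map_mul_of_coprime (by norm_num),
    isMultiplicative_sigma.map_mul_of_coprime (by norm_num), s32, s132, s74, s114]
  norm_num

lemma big2 : 2 * (3 ^ 2 * (13 * (7 ^ 2 * (11 ^ 2 * 19)))) < sg (3 ^ 2 * (13 * (7 ^ 2 * (11 ^ 2 * 19)))) := by
  rw [isMultiplicative_sigma.map_mul_of_coprime (by norm_num),
    isMultiplicative_sigma.map_mul_of_coprime (by norm_num),
    isMultiplicative_sigma.map_mul_of_coprime (by norm_num),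
    isMultiplicative_sigma.map_mul_of_coprime (by norm_num), s32, sp 13 (by norm_num), s72, s112,
    sp 19 (by norm_num)]
  norm_num

lemma big3 : 2 * (3 ^ 4 * (7 ^ 2 * (11 ^ 2 * 19 ^ 2))) < sg (3 ^ 4 * (7 ^ 2 * (11 ^ 2 * 19 ^ 2))) := by
  rw [isMultiplicative_sigma.map_mul_of_coprime (by norm_num),
    isMultiplicative_sigma.map_mul_of_coprime (by norm_num),
    isMultiplicative_sigma.map_mul_of_coprime (by norm_num), s34, s72, s112, s192]
  norm_num

lemma cop_pr {p a : ℕ} (hp : p.Prime) (ha : a.Prime) (hne : p ≠ a) (i : ℕ) : Nat.Coprime (a ^ i) p :=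
  Nat.Coprime.pow_left _ ((Nat.coprime_primes ha hp).2 (Ne.symm hne))

lemma cop4 {p : ℕ} (hp : p.Prime) (h3 : p ≠ 3) (h7 : p ≠ 7) (h11 : p ≠ 11) :
    Nat.Coprime (11 ^ 4) p ∧ Nat.Coprime (7 ^ 4) (11 ^ 4 * p) ∧
      Nat.Coprime (3 ^ 4) (7 ^ 4 * (11 ^ 4 * p)) :=
  ⟨cop_pr hp (by norm_num) h11 4,
    Nat.Coprime.mul_right (by norm_num) (cop_pr hp (by norm_num) h7 4),
    Nat.Coprime.mul_right (by norm_num) (Nat.Coprime.mul_right (by norm_num)
      (cop_pr hp (by norm_num) h3 4))⟩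

lemma big4 {p : ℕ} (hp : p.Prime) (h3 : p ≠ 3) (h7 : p ≠ 7) (h11 : p ≠ 11) (hle : p ≤ 23) :
    2 * (3 ^ 4 * (7 ^ 4 * (11 ^ 4 * p))) < sg (3 ^ 4 * (7 ^ 4 * (11 ^ 4 * p))) := by
  obtain ⟨c1, c2, c3⟩ := cop4 hp h3 h7 h11
  rw [isMultiplicative_sigma.map_mul_of_coprime c3,
    isMultiplicative_sigma.map_mul_of_coprime c2,
    isMultiplicative_sigma.map_mul_of_coprime c1, s34, s74, s114, sp p hp]
  have : 0 < p := hp.pos
  omega

lemma mdvd {a b N : ℕ} (hc : Nat.Coprime a b) (ha : a ∣ N) (hb : b ∣ N) : a * b ∣ N :=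
  Nat.Coprime.mul_dvd_of_dvd_of_dvd hc ha hb

/-- The main step. -/
theorem main (h : Opn N q k n) (hk : 2310 ∣ k + 1) :
    3 ^ 4 ∣ N ∧ 7 ^ 4 ∣ N ∧ 11 ^ 4 ∣ N ∧
      ∀ p : ℕ, p.Prime → p ≤ 23 → p ∣ N → p = 3 ∨ p = 7 ∨ p = 11 := by
  have hq3 : (3 : ℕ) ≠ q := by rintro rfl; have := h.q4; omega
  have hq7 : (7 : ℕ) ≠ q := by rintro rfl; have := h.q4; omega
  have hq11 : (11 : ℕ) ≠ q := by rintro rfl; have := h.q4; omega
  have hq19 : (19 : ℕ) ≠ q := by rintro rfl; have := h.q4; omega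
  have p3 : Nat.Prime 3 := by norm_num
  have p7 : Nat.Prime 7 := by norm_num
  have p11 : Nat.Prime 11 := by norm_num
  have p13 : Nat.Prime 13 := by norm_num
  have p19 : Nat.Prime 19 := by norm_num
  have d3 : 3 ∣ N := forced h p3 (by norm_num) ((by norm_num : 3 * (3 - 1) ∣ 2310).trans hk)
  have d7 : 7 ∣ N := forced h p7 (by norm_num) ((by norm_num : 7 * (7 - 1) ∣ 2310).trans hk)
  have d11 : 11 ∣ N := forced h p11 (by norm_num) ((by norm_num : 11 * (11 - 1) ∣ 2310).trans hk)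
  have e3 := sq_dvd h p3 hq3 d3
  have e7 := sq_dvd h p7 hq7 d7
  have e11 := sq_dvd h p11 hq11 d11
  have podd : ∀ {m : ℕ}, Odd m → m ∣ 2 * N → m ∣ N := fun {m} hm hd =>
    (Nat.Coprime.dvd_of_dvd_mul_left (Nat.coprime_comm.1 (Nat.coprime_two_left.2 hm)) hd)
  have hd19 : ¬ (7 ^ 4 ∣ N ∧ 11 ^ 4 ∣ N) → 19 ∣ N := by
    intro hno
    rcases dich h p7 hq7 d7 with a7 | a7
    · rcases dich h p11 hq11 d11 with a11 | a11
      · exact absurd ⟨a7, a11⟩ hno
      · rw [s112] at a11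
        exact (by norm_num : 19 ∣ 133).trans (podd (by decide) a11)
    · rw [s72] at a7
      exact (by norm_num : 19 ∣ 57).trans (podd (by decide) a7)
  have f3 : 3 ^ 4 ∣ N := by
    rcases dich h p3 hq3 d3 with a3 | a3
    · exact a3
    · exfalso
      rw [s32] at a3
      have d13 : 13 ∣ N := podd (by decide) a3
      by_cases hno : 7 ^ 4 ∣ N ∧ 11 ^ 4 ∣ N
      · have e13 : 13 ^ 2 ∣ N := sq_dvd2 h (two_le hk) p13 d13
        refine not_dvd_of_big h.perf ?_ big1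
        refine mdvd (by norm_num) e3 ?_
        refine mdvd (by norm_num) e13 ?_
        exact mdvd (by norm_num) hno.1 hno.2
      · have d19 := hd19 hno
        refine not_dvd_of_big h.perf ?_ big2
        refine mdvd (by norm_num) e3 ?_
        refine mdvd (by norm_num) d13 ?_
        refine mdvd (by norm_num) e7 ?_
        exact mdvd (by norm_num) e11 d19
  have f711 : 7 ^ 4 ∣ N ∧ 11 ^ 4 ∣ N := by
    by_contra hno
    have e19 := sq_dvd h p19 hq19 (hd19 hno)
    refine not_dvd_of_big h.perf ?_ big3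
    refine mdvd (by norm_num) f3 ?_
    refine mdvd (by norm_num) e7 ?_
    exact mdvd (by norm_num) e11 e19
  refine ⟨f3, f711.1, f711.2, ?_⟩
  intro p hp hle hd
  by_contra hno
  simp only [not_or] at hno
  obtain ⟨n3, n7, n11⟩ := hno
  obtain ⟨c1, c2, c3⟩ := cop4 hp n3 n7 n11
  refine not_dvd_of_big h.perf ?_ (big4 hp n3 n7 n11 hle)
  refine mdvd c3 f3 ?_
  refine mdvd c2 f711.1 ?_
  exact mdvd c1 f711.2 hd

theorem not_dvd (h : Opn N q k n) : ¬ 53130 ∣ k + 1 ∧ ¬ 131670 ∣ k + 1 := by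
  constructor
  · intro hk
    have h1 := (main h ((by norm_num : 2310 ∣ 53130).trans hk)).2.2.2 23 (by norm_num) le_rfl
      (forced h (by norm_num) (by norm_num) ((by norm_num : 23 * (23 - 1) ∣ 53130).trans hk))
    omega
  · intro hk
    have h1 := (main h ((by norm_num : 2310 ∣ 131670).trans hk)).2.2.2 19 (by norm_num)
      (by norm_num)
      (forced h (by norm_num) (by norm_num) ((by norm_num : 19 * (19 - 1) ∣ 131670).trans hk))
    omega

end Pool.Agent.Lib.MP_4eb2ef_nt.Exp49
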