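import Pool.Agent.Lib.MP_4eb2ef_nt.LocalClaim

/-! Odd perfect numbers whose special prime has exponent at least five. -/

set_option autoImplicit false

namespace Pool.Agent.Lib.MP_4eb2ef_nt

open Finset ArithmeticFunction

/-- the sum of divisors of a square, prime by prime -/
lemma sigma_sq {n : ℕ} (hn : n ≠ 0) : sigma 1 (n ^ 2) =
    ∏ p ∈ n.primeFactors, ∑ i ∈ range (2 * n.factorization p + 1), p ^ i := by
  have h1 := (isMultiplicative_sigma (k := 1)).multiplicative_factorization (sigma 1)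
    (n := n ^ 2) (pow_ne_zero 2 hn)
  rw [h1]
  unfold Finsupp.prod
  rw [Nat.support_factorization, Nat.primeFactors_pow n two_ne_zero]
  refine Finset.prod_congr rfl fun p hp => ?_
  rw [Nat.factorization_pow]
  change sigma 1 (p ^ (2 * n.factorization p)) = _
  rw [sigma_one_apply_prime_pow (Nat.prime_of_mem_primeFactors hp)]

/-- the core: exponent five -/
theorem five {q h m n : ℕ} (hq : q.Prime) (hq5 : 5 ≤ q) (hh : 2 * h = q + 1)
    (hn0 : n ≠ 0) (hodd : Odd n) (hcop : Nat.Coprime q n)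
    (hn : n ^ 2 = m * (h * ((q ^ 2 + q + 1) * (q ^ 2 - q + 1))))
    (hs : sigma 1 (n ^ 2) = q ^ 5 * m) : q ^ 7 ≤ 80 * n ^ 2 := by
  have hm0 : m ≠ 0 := by
    rintro rfl
    rw [zero_mul] at hn
    exact hn0 (pow_eq_zero_iff (two_ne_zero)|>.1 hn)
  have hqm : ¬ q ∣ m := by
    intro h1
    have h2 : q ∣ n ^ 2 := by
      rw [hn]
      exact h1.mul_right _
    have h3 : q ∣ n := hq.dvd_of_dvd_pow h2
    exact (Nat.Prime.coprime_iff_not_dvd hq).1 hcop h3
  have hqq : q ≤ q ^ 2 := by nlinarith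
  have hAB4 : q ^ 4 ≤ (q ^ 2 + q + 1) * (q ^ 2 - q + 1) := by
    have h1 : (q ^ 2 + q + 1) * (q ^ 2 - q + 1) = q ^ 4 + q ^ 2 + 1 := by
      obtain ⟨c, hc⟩ : ∃ c, q ^ 2 = q + c := ⟨q ^ 2 - q, by omega⟩
      have h2 : q ^ 2 - q = c := by omega
      rw [h2]
      have h3 : q ^ 4 = q ^ 2 * q ^ 2 := by ring
      rw [h3]
      nlinarith
    omega
  set T := n.primeFactors with hT
  set S : ℕ → ℕ := fun p => ∑ i ∈ range (2 * n.factorization p + 1), p ^ i with hS
  have hSpos : ∀ p ∈ T, S p ≠ 0 := by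
    intro p hp
    have h1 := last_le (p := p) (b := n.factorization p)
    have h2 : 0 < p ^ (2 * n.factorization p) := by
      have := (Nat.prime_of_mem_primeFactors hp).pos
      positivity
    simp only [hS]
    omega
  set κ : ℕ → ℕ := fun p => (S p).factorization q with hκ
  set M : ℕ → ℕ := fun p => S p / q ^ (κ p) with hM
  have hSM : ∀ p, S p = M p * q ^ κ p := by
    intro p
    rw [hM]
    simp only []
    rw [Nat.div_mul_cancel (Nat.ordProj_dvd _ _)]
  have hprod : ∏ p ∈ T, S p = q ^ 5 * m := by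
    rw [← hs, sigma_sq hn0]
  have hsum : ∑ p ∈ T, κ p = 5 := by
    have h1 : (∏ p ∈ T, S p).factorization q = ∑ p ∈ T, κ p := by
      rw [Nat.factorization_prod hSpos]
      simp [hκ, Finsupp.finsetSum_apply]
    rw [← h1, hprod, Nat.factorization_mul (pow_ne_zero _ hq.ne_zero) hm0, Nat.factorization_pow]
    simp [hq.factorization_self, Nat.factorization_eq_zero_of_not_dvd hqm]
  have hprodM : ∏ p ∈ T, M p = m := by
    have h1 : ∏ p ∈ T, S p = (∏ p ∈ T, M p) * q ^ (∑ p ∈ T, κ p) := by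
      rw [← Finset.prod_pow_eq_pow_sum, ← Finset.prod_mul_distrib]
      exact Finset.prod_congr rfl fun p _ => hSM p
    rw [hprod, hsum, mul_comm] at h1
    exact (Nat.eq_of_mul_eq_mul_right (pow_pos hq.pos 5) h1).symm
  by_cases hG : q ^ 2 ≤ 3 * m
  · -- easy
    have h1 : m * q ^ 5 ≤ 2 * n ^ 2 := by
      rw [hn]
      calc m * q ^ 5 = m * (q * q ^ 4) := by ring
        _ ≤ m * ((2 * h) * ((q ^ 2 + q + 1) * (q ^ 2 - q + 1))) :=
            Nat.mul_le_mul_left _ (Nat.mul_le_mul (by omega) hAB4)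
        _ = _ := by ring
    calc q ^ 7 = q ^ 2 * q ^ 5 := by ring
      _ ≤ 3 * m * q ^ 5 := Nat.mul_le_mul_right _ hG
      _ = 3 * (m * q ^ 5) := by ring
      _ ≤ 3 * (2 * n ^ 2) := Nat.mul_le_mul_left _ h1
      _ ≤ _ := by omega
  set W : ℕ := h ^ 4 * ((q ^ 2 + q + 1) * (q ^ 2 - q + 1)) with hW
  have hh0 : h ≠ 0 := by omega
  have hW0 : W ≠ 0 := by
    rw [hW]
    refine Nat.mul_ne_zero (pow_ne_zero _ hh0) (Nat.mul_ne_zero (by omega) (by omega))
  have hloc : ∀ p ∈ T, p ^ (W.factorization p) ≤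
      (if p = 3 then 49 else 1) * (5 ^ κ p * (M p) ^ 4) := by
    intro p hp
    have hpp := Nat.prime_of_mem_primeFactors hp
    have hp3 : 3 ≤ p := by
      rcases Nat.lt_or_ge p 3 with h1 | h1
      · exfalso
        have h2 : p = 2 := by
          have := hpp.two_le
          omega
        have h3 : 2 ∣ n := by
          rw [← h2]
          exact Nat.dvd_of_mem_primeFactors hp
        rcases hodd with ⟨c, hc⟩
        omega
      · exact h1
    rcases local_claim hq hq5 hh hn0 hn hpp hp3 rfl (hSM p) with h1 | h1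
    · exact h1
    · exact absurd h1 hG
  have hWprod : W = ∏ p ∈ T, p ^ (W.factorization p) := by
    have h1 := Nat.prod_factorization_pow_eq_self hW0
    unfold Finsupp.prod at h1
    rw [Nat.support_factorization] at h1
    have h2 : W.primeFactors ⊆ T := by
      intro p hp
      have hpp := Nat.prime_of_mem_primeFactors hp
      have h3 := Nat.dvd_of_mem_primeFactors hp
      rw [hT, Nat.mem_primeFactors]
      refine ⟨hpp, ?_, hn0⟩
      have h4 : p ∣ n ^ 2 := by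
        rw [hn]
        refine Dvd.dvd.mul_left ?_ m
        rcases (hpp.dvd_mul).1 h3 with h5 | h5
        · exact (hpp.dvd_of_dvd_pow h5).mul_right _
        · exact h5.mul_left _
      exact hpp.dvd_of_dvd_pow h4
    rw [← Finset.prod_subset h2 (fun p _ hp => ?_)]
    · exact h1.symm
    · rw [Finsupp.notMem_support_iff.1 (by rwa [Nat.support_factorization]), pow_zero]
  have hWle : W ≤ 49 * (5 ^ 5 * m ^ 4) := by
    rw [hWprod]
    calc ∏ p ∈ T, p ^ (W.factorization p)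
        ≤ ∏ p ∈ T, ((if p = 3 then 49 else 1) * (5 ^ κ p * (M p) ^ 4)) :=
          Finset.prod_le_prod' hloc
      _ = (∏ p ∈ T, (if p = 3 then 49 else 1)) * (5 ^ (∑ p ∈ T, κ p) * (∏ p ∈ T, M p) ^ 4) := by
          rw [Finset.prod_mul_distrib, Finset.prod_mul_distrib, Finset.prod_pow_eq_pow_sum,
            Finset.prod_pow]
      _ ≤ _ := by
          rw [hsum, hprodM]
          refine Nat.mul_le_mul_right _ ?_
          rw [Finset.prod_ite_eq']
          split_ifs <;> norm_num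
  have h8 : (q ^ 2) ^ 4 ≤ (40 * m) ^ 4 := by
    calc (q ^ 2) ^ 4 = q ^ 4 * q ^ 4 := by ring
      _ ≤ (2 * h) ^ 4 * ((q ^ 2 + q + 1) * (q ^ 2 - q + 1)) :=
          Nat.mul_le_mul (Nat.pow_le_pow_left (by omega) 4) hAB4
      _ = 16 * W := by rw [hW]; ring
      _ ≤ 16 * (49 * (5 ^ 5 * m ^ 4)) := Nat.mul_le_mul_left _ hWle
      _ ≤ _ := by
          have : (40 * m) ^ 4 = 2560000 * m ^ 4 := by ring
          rw [this]
          omega
  have h9 : q ^ 2 ≤ 40 * m := (Nat.pow_le_pow_iff_left (by norm_num)).1 h8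
  have h1 : m * q ^ 5 ≤ 2 * n ^ 2 := by
    rw [hn]
    calc m * q ^ 5 = m * (q * q ^ 4) := by ring
      _ ≤ m * ((2 * h) * ((q ^ 2 + q + 1) * (q ^ 2 - q + 1))) :=
          Nat.mul_le_mul_left _ (Nat.mul_le_mul (by omega) hAB4)
      _ = _ := by ring
  calc q ^ 7 = q ^ 2 * q ^ 5 := by ring
    _ ≤ 40 * m * q ^ 5 := Nat.mul_le_mul_right _ h9
    _ = 40 * (m * q ^ 5) := by ring
    _ ≤ 40 * (2 * n ^ 2) := Nat.mul_le_mul_left _ h1
    _ = _ := by ring

/-- the main theorem -/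
theorem seventh_power {N q k n : ℕ} (hN : Odd N) (hperf : Nat.Perfect N) (hq : q.Prime)
    (hq4 : q % 4 = 1) (hk4 : k % 4 = 1) (hcop : Nat.Coprime q n) (hNe : N = q ^ k * n ^ 2)
    (hk : 1 < k) : q ^ 7 ≤ 80 * n ^ 2 := by
  have hN0 : 0 < N := hperf.2
  have hn0 : n ≠ 0 := by
    rintro rfl
    rw [hNe] at hN0
    simp at hN0
  have hodd : Odd n := by
    rw [hNe] at hN
    have h1 := (Nat.odd_mul.1 hN).2
    rw [sq] at h1
    exact (Nat.odd_mul.1 h1).1
  have hq5 : 5 ≤ q := by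
    have := hq.two_le
    omega
  have hsig : sigma 1 N = 2 * N := by
    rw [sigma_one_apply]
    exact (Nat.perfect_iff_sum_divisors_eq_two_mul hN0).1 hperf
  have hcop2 : Nat.Coprime (q ^ k) (n ^ 2) := Nat.Coprime.pow k 2 hcop
  have hmul : sigma 1 (q ^ k) * sigma 1 (n ^ 2) = 2 * (q ^ k * n ^ 2) := by
    rw [← isMultiplicative_sigma.map_mul_of_coprime hcop2, ← hNe, hsig]
  have hsq : sigma 1 (q ^ k) = ∑ i ∈ range (k + 1), q ^ i := sigma_one_apply_prime_pow hq
  have hcop3 : Nat.Coprime (sigma 1 (q ^ k)) q := by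
    rw [hsq, Finset.sum_range_succ']
    have h1 : ∑ i ∈ range k, q ^ (i + 1) = q * ∑ i ∈ range k, q ^ i := by
      rw [Finset.mul_sum]
      exact Finset.sum_congr rfl fun i _ => by ring
    rw [h1, pow_zero]
    have h2 : Nat.Coprime 1 q := Nat.coprime_one_left q
    exact (Nat.coprime_mul_left_add_left 1 q _).2 h2
  rcases Nat.lt_or_ge k 9 with hk9 | hk9
  · -- k = 5
    have hk5 : k = 5 := by omega
    subst hk5
    obtain ⟨h, hh⟩ : ∃ h, 2 * h = q + 1 := ⟨(q + 1) / 2, by omega⟩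
    have hqq : q ≤ q ^ 2 := by nlinarith
    have hs5 : sigma 1 (q ^ 5) = 2 * (h * ((q ^ 2 + q + 1) * (q ^ 2 - q + 1))) := by
      rw [hsq]
      simp only [Finset.sum_range_succ, Finset.range_zero, Finset.sum_empty]
      have h1 : (q ^ 2 + q + 1) * (q ^ 2 - q + 1) = q ^ 4 + q ^ 2 + 1 := by
        obtain ⟨c, hc⟩ : ∃ c, q ^ 2 = q + c := ⟨q ^ 2 - q, by omega⟩
        have h2 : q ^ 2 - q = c := by omega
        rw [h2]
        have h3 : q ^ 4 = q ^ 2 * q ^ 2 := by ring
        rw [h3]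
        nlinarith
      rw [h1, ← mul_assoc, hh]
      ring
    have hmul2 : (h * ((q ^ 2 + q + 1) * (q ^ 2 - q + 1))) * sigma 1 (n ^ 2) =
        q ^ 5 * n ^ 2 := by
      rw [hs5] at hmul
      have : 2 * ((h * ((q ^ 2 + q + 1) * (q ^ 2 - q + 1))) * sigma 1 (n ^ 2)) =
          2 * (q ^ 5 * n ^ 2) := by rw [← hmul]; ring
      omega
    have hcop4 : Nat.Coprime (h * ((q ^ 2 + q + 1) * (q ^ 2 - q + 1))) (q ^ 5) := by
      apply Nat.Coprime.pow_right
      rw [hs5] at hcop3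
      exact Nat.Coprime.coprime_dvd_left (Dvd.intro_left 2 rfl) hcop3
    have hdvd : h * ((q ^ 2 + q + 1) * (q ^ 2 - q + 1)) ∣ n ^ 2 :=
      hcop4.dvd_of_dvd_mul_left (Dvd.intro _ hmul2)
    obtain ⟨m, hm⟩ := hdvd
    have hpos : 0 < h * ((q ^ 2 + q + 1) * (q ^ 2 - q + 1)) := by
      have h1 : 0 < h := by omega
      positivity
    refine five (h := h) (m := m) hq hq5 hh hn0 hodd hcop (by rw [hm]; ring) ?_
    have h1 : (h * ((q ^ 2 + q + 1) * (q ^ 2 - q + 1))) * sigma 1 (n ^ 2) =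
        (h * ((q ^ 2 + q + 1) * (q ^ 2 - q + 1))) * (q ^ 5 * m) := by
      rw [hmul2, hm]
      ring
    exact Nat.eq_of_mul_eq_mul_left hpos h1
  · -- k ≥ 9
    have h1 : sigma 1 (q ^ k) ∣ 2 * n ^ 2 := by
      have h2 : sigma 1 (q ^ k) ∣ q ^ k * (2 * n ^ 2) := by
        refine Dvd.intro (sigma 1 (n ^ 2)) ?_
        rw [hmul]
        ring
      exact (Nat.Coprime.pow_right k hcop3).dvd_of_dvd_mul_left h2
    have h2 : sigma 1 (q ^ k) ≤ 2 * n ^ 2 := by
      refine Nat.le_of_dvd ?_ h1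
      have : 0 < n := Nat.pos_of_ne_zero hn0
      positivity
    have h3 : q ^ k ≤ sigma 1 (q ^ k) := by
      rw [hsq, Finset.sum_range_succ]
      omega
    have h4 : q ^ 7 ≤ q ^ k := Nat.pow_le_pow_right (by omega) (by omega)
    omega

end Pool.Agent.Lib.MP_4eb2ef_nt
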