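import Pool.Agent.Lib.MP_4eb2ef_nt.LocalOpn

/-! The local inequality at one prime of the companion of an odd perfect number. -/

set_option autoImplicit false

namespace Pool.Agent.Lib.MP_4eb2ef_nt

open Finset

lemma geom_id {p b : ℕ} (hp : 1 ≤ p) :
    (p - 1) * (∑ i ∈ range (2 * b + 1), p ^ i) + 1 = p ^ (2 * b + 1) := by
  obtain ⟨r, rfl⟩ : ∃ r, p = r + 1 := ⟨p - 1, by omega⟩
  have h := geom_sum_mul_add r (2 * b + 1)
  simp only [Nat.add_sub_cancel]
  rw [mul_comm]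
  exact h

/-- the size of the last term -/
lemma last_le {p b : ℕ} : p ^ (2 * b) ≤ ∑ i ∈ range (2 * b + 1), p ^ i := by
  rw [Finset.sum_range_succ]
  omega

lemma sum_le {p b : ℕ} (hp : 3 ≤ p) : 2 * (∑ i ∈ range (2 * b + 1), p ^ i) ≤ 3 * p ^ (2 * b) := by
  obtain ⟨r, hr⟩ : ∃ r, p = r + 1 := ⟨p - 1, by omega⟩
  have h := geom_id (p := p) (b := b) (by omega)
  rw [pow_succ] at h
  set S := ∑ i ∈ range (2 * b + 1), p ^ i with hS
  set P := p ^ (2 * b) with hP
  have e : p - 1 = r := by omega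
  rw [e, hr] at h
  -- r S + 1 = P (r+1)
  have hr2 : 2 ≤ r := by omega
  have h1 : r * (2 * S) ≤ r * (3 * P) := by nlinarith
  exact Nat.le_of_mul_le_mul_left h1 (by omega)

/-! ### primes dividing `q + 1` -/

lemma lemH_odd {p α M q κ b : ℕ} (hp : 3 ≤ p) (hα : p ^ α ∣ q + 1) (hαb : α ≤ 2 * b + 1)
    (hS : (p - 1) * (M * q ^ κ) + 1 = p ^ (2 * b + 1)) (hM : 1 ≤ M) (hκ : Odd κ) :
    (p - 2) * p ^ α + 1 ≤ (p - 1) * M := by
  obtain ⟨r, hr⟩ : ∃ r, p = r + 1 := ⟨p - 1, by omega⟩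
  have hr2 : 2 ≤ r := by omega
  have e1 : p - 1 = r := by omega
  have e2 : p - 2 = r - 1 := by omega
  rw [e1] at hS ⊢
  rw [e2]
  have hq : ((p ^ α : ℕ) : ℤ) ∣ (q : ℤ) + 1 := by exact_mod_cast hα
  have hP : ((p ^ α : ℕ) : ℤ) ∣ ((p ^ (2 * b + 1) : ℕ) : ℤ) := by
    exact_mod_cast pow_dvd_pow p hαb
  rw [← hS] at hP
  push_cast at hP
  have hqk : ((p : ℤ) ^ α) ∣ (q : ℤ) ^ κ + 1 := by
    have h1 : (q : ℤ) + 1 ∣ (q : ℤ) ^ κ + 1 := by
      have := Odd.add_dvd_pow_add_pow (q : ℤ) 1 hκ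
      simpa using this
    push_cast at hq
    exact hq.trans h1
  have h2 : ((p : ℤ) ^ α) ∣ (r : ℤ) * M - 1 := by
    have h3 := (hqk.mul_left ((r : ℤ) * M)).sub hP
    have e : (r : ℤ) * M * ((q : ℤ) ^ κ + 1) - ((r : ℤ) * (M * (q : ℤ) ^ κ) + 1) = r * M - 1 := by
      ring
    rwa [e] at h3
  obtain ⟨t, ht⟩ := h2
  have hrZ : (2 : ℤ) ≤ r := by exact_mod_cast hr2
  have hMZ : (1 : ℤ) ≤ M := by exact_mod_cast hM
  have hPpos : (0 : ℤ) < (p : ℤ) ^ α := by
    have : (0 : ℤ) < p := by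
      have : 0 < p := by omega
      exact_mod_cast this
    positivity
  have ht0 : 0 < t := by
    by_contra hcon
    have : (p : ℤ) ^ α * t ≤ 0 := mul_nonpos_of_nonneg_of_nonpos hPpos.le (by linarith)
    nlinarith
  have h4 : (r : ℤ) ∣ t + 1 := by
    have h5 : (r : ℤ) ∣ (p : ℤ) ^ α - 1 := by
      have := sub_one_dvd_pow_sub_one (p : ℤ) α
      have e : (p : ℤ) - 1 = r := by rw [hr]; push_cast; ring
      rwa [e] at this
    have e : t + 1 = r * M - ((p : ℤ) ^ α - 1) * t := by linear_combination -ht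
    rw [e]
    exact (Dvd.intro _ rfl).sub (h5.mul_right _)
  have h5 : (r : ℤ) ≤ t + 1 := Int.le_of_dvd (by linarith) h4
  have h6 : ((r : ℤ) - 1) * (p : ℤ) ^ α + 1 ≤ r * M := by
    have h7 : ((r : ℤ) - 1) * (p : ℤ) ^ α ≤ t * (p : ℤ) ^ α := by
      apply mul_le_mul_of_nonneg_right _ hPpos.le
      linarith
    linarith
  have h7 : (((r - 1) * p ^ α + 1 : ℕ) : ℤ) ≤ ((r * M : ℕ) : ℤ) := by
    rw [Nat.cast_add, Nat.cast_mul, Nat.cast_sub (by omega)]
    push_cast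
    exact h6
  exact_mod_cast h7

lemma lemH_even {p α M q κ b : ℕ} (hp : 3 ≤ p) (hα : p ^ α ∣ q + 1) (hαb : α ≤ 2 * b + 1)
    (hS : (p - 1) * (M * q ^ κ) + 1 = p ^ (2 * b + 1)) (hM : 1 ≤ M) (hκ : Even κ) :
    (p - 1) * M + 1 = p ^ α ∨ p ^ α ≤ M := by
  obtain ⟨r, hr⟩ : ∃ r, p = r + 1 := ⟨p - 1, by omega⟩
  have hr2 : 2 ≤ r := by omega
  have e1 : p - 1 = r := by omega
  rw [e1] at hS ⊢
  have hq : ((p ^ α : ℕ) : ℤ) ∣ (q : ℤ) + 1 := by exact_mod_cast hα
  have hP : ((p ^ α : ℕ) : ℤ) ∣ ((p ^ (2 * b + 1) : ℕ) : ℤ) := by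
    exact_mod_cast pow_dvd_pow p hαb
  rw [← hS] at hP
  push_cast at hP
  have hqk : ((p : ℤ) ^ α) ∣ (q : ℤ) ^ κ - 1 := by
    obtain ⟨j, hj⟩ := hκ
    have h1 : (q : ℤ) + 1 ∣ (q : ℤ) ^ κ - 1 := by
      have h2 := sub_one_dvd_pow_sub_one ((q : ℤ) ^ 2) j
      have h3 : (q : ℤ) + 1 ∣ (q : ℤ) ^ 2 - 1 := ⟨q - 1, by ring⟩
      have e : ((q : ℤ) ^ 2) ^ j = (q : ℤ) ^ κ := by rw [← pow_mul, hj, two_mul]
      rw [e] at h2
      exact h3.trans h2
    push_cast at hq
    exact hq.trans h1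
  have h2 : ((p : ℤ) ^ α) ∣ (r : ℤ) * M + 1 := by
    have h3 := hP.sub (hqk.mul_left ((r : ℤ) * M))
    have e : ((r : ℤ) * (M * (q : ℤ) ^ κ) + 1) - (r : ℤ) * M * ((q : ℤ) ^ κ - 1) = r * M + 1 := by
      ring
    rwa [e] at h3
  obtain ⟨t, ht⟩ := h2
  have hrZ : (2 : ℤ) ≤ r := by exact_mod_cast hr2
  have hMZ : (1 : ℤ) ≤ M := by exact_mod_cast hM
  have hPpos : (0 : ℤ) < (p : ℤ) ^ α := by
    have : (0 : ℤ) < p := by
      have : 0 < p := by omega
      exact_mod_cast this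
    positivity
  have ht0 : 0 < t := by
    by_contra hcon
    have : (p : ℤ) ^ α * t ≤ 0 := mul_nonpos_of_nonneg_of_nonpos hPpos.le (by linarith)
    nlinarith
  have h4 : (r : ℤ) ∣ t - 1 := by
    have h5 : (r : ℤ) ∣ (p : ℤ) ^ α - 1 := by
      have := sub_one_dvd_pow_sub_one (p : ℤ) α
      have e : (p : ℤ) - 1 = r := by rw [hr]; push_cast; ring
      rwa [e] at this
    have e : t - 1 = r * M - ((p : ℤ) ^ α - 1) * t := by linear_combination -ht
    rw [e]
    exact (Dvd.intro _ rfl).sub (h5.mul_right _)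
  rcases eq_or_ne t 1 with ht1 | ht1
  · left
    rw [ht1, mul_one] at ht
    exact_mod_cast ht
  · right
    have h5 : (r : ℤ) ≤ t - 1 := Int.le_of_dvd (by omega) h4
    have h6 : (r : ℤ) * (p : ℤ) ^ α ≤ r * M := by
      have h7 : ((r : ℤ) + 1) * (p : ℤ) ^ α ≤ t * (p : ℤ) ^ α := by
        apply mul_le_mul_of_nonneg_right _ hPpos.le
        linarith
      nlinarith [Int.add_one_le_iff.2 hPpos]
    have h7 : (p : ℤ) ^ α ≤ M := le_of_mul_le_mul_left h6 (by linarith)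
    exact_mod_cast h7

/-- the square case is excluded -/
lemma lemSq {p α M q b : ℕ} (hp : p.Prime) (hp5 : 5 ≤ p) (hα1 : 1 ≤ α) (hq : q.Prime)
    (hS : (p - 1) * (M * q ^ 2) + 1 = p ^ (2 * b + 1)) (hM : 1 ≤ M)
    (hR : (p - 1) * M + 1 = p ^ α) : False := by
  have h1 : p ^ α - 1 = (p - 1) * M := by omega
  have h2 : (p ^ α - 1) * q ^ 2 + 1 = p ^ (2 * b + 1) := by
    rw [h1, ← hS]
    ring
  have h3 : p ^ α - 1 ∣ p ^ (2 * b + 1) - 1 := by
    rw [← h2]
    simp only [Nat.add_sub_cancel]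
    exact Dvd.intro _ rfl
  have h4 : α ∣ 2 * b + 1 := by
    have h5 := Nat.pow_sub_one_gcd_pow_sub_one p α (2 * b + 1)
    rw [Nat.gcd_eq_left h3] at h5
    have h6 : p ^ α = p ^ (Nat.gcd α (2 * b + 1)) := by
      have h7 : 1 ≤ p ^ α := Nat.one_le_pow _ _ (by omega)
      have h8 : 1 ≤ p ^ (Nat.gcd α (2 * b + 1)) := Nat.one_le_pow _ _ (by omega)
      omega
    have h7 : α = Nat.gcd α (2 * b + 1) := Nat.pow_right_injective hp.two_le h6
    rw [h7]
    exact Nat.gcd_dvd_right _ _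
  obtain ⟨c, hc⟩ := h4
  have hodd : Odd (α * c) := by rw [← hc]; exact ⟨b, rfl⟩
  have hαo : Odd α := (Nat.odd_mul.1 hodd).1
  obtain ⟨a0, ha0⟩ := hαo
  have hlt : α < 2 * b + 1 := by
    have h5 : p ^ α < p ^ (2 * b + 1) := by
      rw [← h2]
      have h6 : 1 ≤ p ^ α - 1 := by
        rw [h1]
        exact Nat.one_le_iff_ne_zero.2 (Nat.mul_ne_zero (by omega) (by omega))
      have h7 : 4 ≤ q ^ 2 := by
        have := hq.two_le
        nlinarith
      have h8 : (p ^ α - 1) * 4 ≤ (p ^ α - 1) * q ^ 2 := Nat.mul_le_mul_left _ h7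
      omega
    exact (Nat.pow_lt_pow_iff_right (by omega)).1 h5
  refine pell_ex (p := p) (α := α) (f := b - a0) (q := q) hp (by omega) hα1 ?_ (by omega) hq ?_
  · intro h5
    have h6 : p ≤ p ^ α := Nat.le_self_pow (by omega) p
    omega
  · rw [h2, ← pow_mul, ← pow_add]
    congr 1
    omega

/-! ### the local claim -/

theorem local_claim {q h m n p b κ M : ℕ} (hq : q.Prime) (hq5 : 5 ≤ q) (hh : 2 * h = q + 1)
    (hn0 : n ≠ 0) (hn : n ^ 2 = m * (h * ((q ^ 2 + q + 1) * (q ^ 2 - q + 1))))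
    (hp : p.Prime) (hp3 : 3 ≤ p) (hb : n.factorization p = b)
    (hS : ∑ i ∈ range (2 * b + 1), p ^ i = M * q ^ κ) :
    p ^ ((h ^ 4 * ((q ^ 2 + q + 1) * (q ^ 2 - q + 1))).factorization p) ≤
      (if p = 3 then 49 else 1) * (5 ^ κ * M ^ 4) ∨ q ^ 2 ≤ 3 * m := by
  set A : ℕ := q ^ 2 + q + 1 with hA
  set B : ℕ := q ^ 2 - q + 1 with hB
  have hqq : q ≤ q ^ 2 := by nlinarith
  have hBZ : (B : ℤ) = (q : ℤ) ^ 2 - q + 1 := by
    rw [hB, Nat.cast_add, Nat.cast_sub hqq]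
    push_cast
    ring
  have hAZ : (A : ℤ) = (q : ℤ) ^ 2 + q + 1 := by rw [hA]; push_cast; ring
  have hA0 : A ≠ 0 := by omega
  have hB0 : B ≠ 0 := by omega
  have hAB0 : A * B ≠ 0 := Nat.mul_ne_zero hA0 hB0
  have hh0 : h ≠ 0 := by omega
  have hm0 : m ≠ 0 := by
    rintro rfl
    rw [zero_mul] at hn
    exact hn0 (pow_eq_zero_iff (two_ne_zero)|>.1 hn)
  have hM1 : 1 ≤ M := by
    rcases Nat.eq_zero_or_pos M with h0 | h0
    · exfalso
      rw [h0, zero_mul] at hS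
      have h1 := last_le (p := p) (b := b)
      have h2 : 0 < p ^ (2 * b) := by positivity
      omega
    · exact h0
  set α : ℕ := h.factorization p with hα
  set a : ℕ := (A * B).factorization p with ha
  have hW : (h ^ 4 * (A * B)).factorization p = 4 * α + a := by
    rw [Nat.factorization_mul (pow_ne_zero _ hh0) hAB0, Nat.factorization_pow]
    simp [hα, ha]
  have hF2 : 2 * b = m.factorization p + (α + a) := by
    have h1 : (n ^ 2).factorization p = 2 * b := by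
      rw [Nat.factorization_pow]
      simp [hb]
    rw [← h1, hn, Nat.factorization_mul hm0 (Nat.mul_ne_zero hh0 hAB0),
      Nat.factorization_mul hh0 hAB0]
    simp [hα, ha]
  rw [hW]
  have hgeo := geom_id (p := p) (b := b) (by omega)
  rw [hS] at hgeo
  have hc1 : 1 ≤ (if p = 3 then 49 else 1 : ℕ) := by split_ifs <;> norm_num
  have hM4 : 1 ≤ M ^ 4 := Nat.one_le_pow _ _ hM1
  -- reduce: enough p^(4α+a) ≤ 5^κ M^4
  have hred : p ^ (4 * α + a) ≤ 5 ^ κ * M ^ 4 →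
      p ^ (4 * α + a) ≤ (if p = 3 then 49 else 1) * (5 ^ κ * M ^ 4) := fun h =>
    h.trans (Nat.le_mul_of_pos_left _ hc1)
  have hαh : p ^ α ∣ h := Nat.ordProj_dvd h p
  have hαq : p ^ α ∣ q + 1 := by rw [← hh]; exact hαh.mul_left 2
  have haAB : p ^ a ∣ A * B := Nat.ordProj_dvd (A * B) p
  -- κ = 0
  rcases Nat.eq_zero_or_pos κ with hκ0 | hκ1
  · left
    apply hred
    rw [hκ0, pow_zero, mul_one] at hS
    rw [hκ0, pow_zero, one_mul, ← hS]
    calc p ^ (4 * α + a) ≤ p ^ (2 * b * 4) := Nat.pow_le_pow_right (by omega) (by omega)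
      _ = (p ^ (2 * b)) ^ 4 := by rw [pow_mul]
      _ ≤ _ := Nat.pow_le_pow_left last_le 4
  -- facts on p
  have h3 : p = 3 → a ≤ 1 := by
    intro hp3'
    by_contra hcon
    have h1 : 3 ^ 2 ∣ A * B := by
      rw [hp3'] at haAB
      exact (pow_dvd_pow 3 (by omega)).trans haAB
    have h2 : (9 : ℤ) ∣ ((A * B : ℕ) : ℤ) := by
      have : ((3 ^ 2 : ℕ) : ℤ) ∣ ((A * B : ℕ) : ℤ) := by exact_mod_cast h1
      simpa using this
    rw [Nat.cast_mul, hAZ, hBZ] at h2
    have h4 : ((q : ℤ) ^ 2 + q + 1) * ((q : ℤ) ^ 2 - q + 1) = (q : ℤ) ^ 4 + (q : ℤ) ^ 2 + 1 := by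
      ring
    rw [h4] at h2
    have h5 : ((q : ℤ) ^ 4 + (q : ℤ) ^ 2 + 1) % 9 = 0 := Int.emod_eq_zero_of_dvd h2
    have h6 : (q : ℤ) % 9 = 0 ∨ (q : ℤ) % 9 = 1 ∨ (q : ℤ) % 9 = 2 ∨ (q : ℤ) % 9 = 3 ∨
        (q : ℤ) % 9 = 4 ∨ (q : ℤ) % 9 = 5 ∨ (q : ℤ) % 9 = 6 ∨ (q : ℤ) % 9 = 7 ∨
        (q : ℤ) % 9 = 8 := by omega
    rcases h6 with h | h | h | h | h | h | h | h | h <;>
      simp [Int.add_emod, pow_succ, Int.mul_emod, h] at h5
  have h5 : p ≠ 3 → 1 ≤ α → a = 0 := by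
    intro hp3' hα1
    by_contra hcon
    have h1 : p ∣ A * B := (dvd_pow_self p hcon).trans haAB
    have h2 : p ∣ q + 1 := (dvd_pow_self p (by omega)).trans hαq
    have h3 : (p : ℤ) ∣ (q : ℤ) + 1 := by exact_mod_cast h2
    have h4 : (p : ℤ) ∣ ((A * B : ℕ) : ℤ) := by exact_mod_cast h1
    rw [Nat.cast_mul, hAZ, hBZ] at h4
    have h6 := h4.sub (h3.mul_right ((q : ℤ) ^ 3 - (q : ℤ) ^ 2 + 2 * q - 2))
    have e : ((q : ℤ) ^ 2 + q + 1) * ((q : ℤ) ^ 2 - q + 1) -
        ((q : ℤ) + 1) * ((q : ℤ) ^ 3 - (q : ℤ) ^ 2 + 2 * q - 2) = 3 := by ring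
    rw [e] at h6
    have h7 : p ∣ 3 := by exact_mod_cast h6
    have h8 : p ≤ 3 := Nat.le_of_dvd (by norm_num) h7
    omega
  -- p divides only one of A, B
  have hAB : p ≠ 3 → p ^ a ∣ A ∨ p ^ a ∣ B := by
    intro hp3'
    rcases Nat.eq_zero_or_pos a with h0 | h0
    · left
      rw [h0, pow_zero]
      exact one_dvd _
    have h1 : a = A.factorization p + B.factorization p := by
      rw [ha, Nat.factorization_mul hA0 hB0]
      simp
    by_cases hpB : p ∣ B
    · right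
      have h2 : ¬ p ∣ A := by
        intro hpA
        have h3 : (p : ℤ) ∣ (A : ℤ) := by exact_mod_cast hpA
        have h4 : (p : ℤ) ∣ (B : ℤ) := by exact_mod_cast hpB
        have h6 := h3.sub h4
        have e : (A : ℤ) - B = 2 * q := by rw [hAZ, hBZ]; ring
        rw [e] at h6
        have h7 : p ∣ 2 * q := by exact_mod_cast h6
        rcases (hp.dvd_mul).1 h7 with h8 | h8
        · have := Nat.le_of_dvd (by norm_num) h8
          omega
        · have h9 : (p : ℤ) ∣ (q : ℤ) := by exact_mod_cast h8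
          have h10 : (p : ℤ) ∣ 1 := by
            have h11 := h3.sub (h9.mul_right ((q : ℤ) + 1))
            have e : (A : ℤ) - q * (q + 1) = 1 := by rw [hAZ]; ring
            rwa [e] at h11
          have h12 : p ∣ 1 := by exact_mod_cast h10
          have := Nat.le_of_dvd (by norm_num) h12
          omega
      have h3 : A.factorization p = 0 := Nat.factorization_eq_zero_of_not_dvd h2
      rw [h3, zero_add] at h1
      rw [h1]
      exact Nat.ordProj_dvd B p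
    · left
      have h3 : B.factorization p = 0 := Nat.factorization_eq_zero_of_not_dvd hpB
      rw [h3, add_zero] at h1
      rw [h1]
      exact Nat.ordProj_dvd A p
  have hAle : A ≤ 2 * q ^ 2 := by nlinarith
  have hBle : B ≤ 2 * q ^ 2 := by omega
  have hpow : p ^ (α + a) ≤ 2 * q ^ 2 := by
    by_cases hp3' : p = 3
    · have h1 : p ^ α ≤ h := Nat.le_of_dvd (by omega) hαh
      have h2 : p ^ a ≤ 3 := by
        rw [hp3']
        calc 3 ^ a ≤ 3 ^ 1 := Nat.pow_le_pow_right (by norm_num) (h3 hp3')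
          _ = 3 := by norm_num
      rw [pow_add]
      calc p ^ α * p ^ a ≤ h * 3 := Nat.mul_le_mul h1 h2
        _ ≤ _ := by nlinarith
    · rcases Nat.eq_zero_or_pos α with h0 | h0
      · rw [h0, zero_add]
        rcases hAB hp3' with h1 | h1
        · exact (Nat.le_of_dvd (by omega) h1).trans hAle
        · exact (Nat.le_of_dvd (by omega) h1).trans hBle
      · rw [h5 hp3' h0, add_zero]
        exact (Nat.le_of_dvd (by omega) hαh).trans (by nlinarith)
  -- the dual inequality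
  have hdual : 2 * (M * q ^ κ) ≤ 3 * (p ^ (α + a) * m) := by
    rw [← hS]
    refine (sum_le hp3).trans (Nat.mul_le_mul_left _ ?_)
    rw [hF2, pow_add, mul_comm]
    exact Nat.mul_le_mul_left _ (Nat.le_of_dvd (by omega) (Nat.ordProj_dvd m p))
  -- κ ≥ 4
  rcases Nat.lt_or_ge κ 4 with hκ4 | hκ4
  swap
  · right
    have h1 : q ^ 4 ≤ M * q ^ κ := by
      calc q ^ 4 ≤ q ^ κ := Nat.pow_le_pow_right (by omega) hκ4
        _ ≤ _ := Nat.le_mul_of_pos_left _ hM1
    have h2 : 2 * q ^ 4 ≤ 3 * (2 * q ^ 2 * m) := by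
      calc 2 * q ^ 4 ≤ 2 * (M * q ^ κ) := Nat.mul_le_mul_left _ h1
        _ ≤ 3 * (p ^ (α + a) * m) := hdual
        _ ≤ _ := Nat.mul_le_mul_left _ (Nat.mul_le_mul_right _ hpow)
    have h3 : q ^ 2 * (2 * q ^ 2) ≤ q ^ 2 * (2 * (3 * m)) := by
      calc q ^ 2 * (2 * q ^ 2) = 2 * q ^ 4 := by ring
        _ ≤ 3 * (2 * q ^ 2 * m) := h2
        _ = _ := by ring
    have h4 := Nat.le_of_mul_le_mul_left h3 (by positivity)
    omega
  have h5κ : 5 ≤ 5 ^ κ := Nat.le_self_pow (by omega) 5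
  -- enough `≤ 5 * M ^ 4`
  have hred2 : p ^ (4 * α + a) ≤ 5 * M ^ 4 →
      p ^ (4 * α + a) ≤ (if p = 3 then 49 else 1) * (5 ^ κ * M ^ 4) := fun h =>
    hred (h.trans (Nat.mul_le_mul_right _ h5κ))
  by_cases hp3' : p = 3
  · -- p = 3
    left
    rw [if_pos hp3']
    rw [hp3'] at hαq hgeo ⊢
    have ha1 := h3 hp3'
    rcases Nat.eq_zero_or_pos α with h0 | h0
    · rw [h0, mul_zero, zero_add]
      calc 3 ^ a ≤ 3 ^ 1 := Nat.pow_le_pow_right (by norm_num) ha1
        _ ≤ 49 * (5 ^ κ * M ^ 4) := by nlinarith [Nat.mul_le_mul h5κ hM4]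
    · have h1 : 3 ^ α ≤ 2 * M + 1 := by
        rcases Nat.even_or_odd κ with hκe | hκo
        · rcases lemH_even (by norm_num) hαq (by omega) hgeo hM1 hκe with h2 | h2
          · omega
          · omega
        · have h2 := lemH_odd (by norm_num) hαq (by omega) hgeo hM1 hκo
          omega
      have h2 : 3 ^ α ≤ 3 * M := by omega
      have h4 : (3 ^ α) ^ 4 ≤ (3 * M) ^ 4 := Nat.pow_le_pow_left h2 4
      have h6 : 3 ^ a ≤ 3 := by
        calc 3 ^ a ≤ 3 ^ 1 := Nat.pow_le_pow_right (by norm_num) ha1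
          _ = 3 := by norm_num
      calc 3 ^ (4 * α + a) = (3 ^ α) ^ 4 * 3 ^ a := by
            rw [pow_add, mul_comm 4 α, pow_mul]
        _ ≤ (3 * M) ^ 4 * 3 := Nat.mul_le_mul h4 h6
        _ = 243 * M ^ 4 := by ring
        _ ≤ 49 * (5 * M ^ 4) := by nlinarith
        _ ≤ _ := Nat.mul_le_mul_left _ (Nat.mul_le_mul_right _ h5κ)
  -- p ≥ 5
  have hp5 : 5 ≤ p := by
    rcases Nat.lt_or_ge p 5 with h1 | h1
    · exfalso
      have : p = 4 := by omega
      rw [this] at hp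
      exact absurd hp (by norm_num)
    · exact h1
  rcases Nat.eq_zero_or_pos α with h0 | h0
  swap
  · -- p ∣ h
    left
    apply hred2
    rw [h5 hp3' h0, add_zero]
    have h1 : 3 * p ^ α ≤ 4 * M := by
      rcases Nat.even_or_odd κ with hκe | hκo
      · have hκ2 : κ = 2 := by
          obtain ⟨j, hj⟩ := hκe
          omega
        rcases lemH_even (by omega) hαq (by omega) hgeo hM1 hκe with h2 | h2
        · exfalso
          rw [hκ2] at hgeo
          exact lemSq hp hp5 h0 hq hgeo hM1 h2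
        · omega
      · have h2 := lemH_odd (by omega) hαq (by omega) hgeo hM1 hκo
        obtain ⟨r, hr⟩ : ∃ r, p = r + 1 := ⟨p - 1, by omega⟩
        obtain ⟨r', hr'⟩ : ∃ r', r = r' + 4 := ⟨r - 4, by omega⟩
        have e1 : p - 1 = r' + 4 := by omega
        have e2 : p - 2 = r' + 3 := by omega
        rw [e1, e2] at h2
        have h6 : (r' + 4) * (3 * p ^ α) ≤ (r' + 4) * (4 * M) := by
          calc (r' + 4) * (3 * p ^ α) = (3 * r' + 12) * p ^ α := by ring
            _ ≤ (4 * r' + 12) * p ^ α := Nat.mul_le_mul_right _ (by omega)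
            _ = 4 * ((r' + 3) * p ^ α) := by ring
            _ ≤ 4 * ((r' + 4) * M) := Nat.mul_le_mul_left _ (by omega)
            _ = _ := by ring
        exact Nat.le_of_mul_le_mul_left h6 (by omega)
    have h2 : (3 * p ^ α) ^ 4 ≤ (4 * M) ^ 4 := Nat.pow_le_pow_left h1 4
    have e1 : (3 * p ^ α) ^ 4 = 81 * p ^ (4 * α) := by
      rw [mul_pow, ← pow_mul, mul_comm α 4]
      norm_num
    have e2 : (4 * M) ^ 4 = 256 * M ^ 4 := by ring
    rw [e1, e2] at h2
    omega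
  rw [h0] at hred2 ⊢
  rw [mul_zero, zero_add] at hred2 ⊢
  rcases Nat.eq_zero_or_pos a with ha0 | ha1
  · left
    apply hred2
    rw [ha0, pow_zero]
    omega
  -- the main case
  have hab : a ≤ 2 * b + 1 := by omega
  have hX : ((p ^ a : ℕ) : ℤ) ∣ (((p : ℤ) - 1) * M) * (q : ℤ) ^ κ + 1 := by
    have h1 : p ^ a ∣ (p - 1) * (M * q ^ κ) + 1 := by
      rw [hgeo]
      exact pow_dvd_pow p hab
    have h2 : ((p ^ a : ℕ) : ℤ) ∣ (((p - 1) * (M * q ^ κ) + 1 : ℕ) : ℤ) := by exact_mod_cast h1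
    have e : (((p - 1) * (M * q ^ κ) + 1 : ℕ) : ℤ) = (((p : ℤ) - 1) * M) * (q : ℤ) ^ κ + 1 := by
      rw [Nat.cast_add, Nat.cast_mul, Nat.cast_sub (by omega)]
      push_cast
      ring
    rwa [e] at h2
  rcases hAB hp3' with hdA | hdB
  · have hG : ((p ^ a : ℕ) : ℤ) ∣ (q : ℤ) ^ 2 + q + 1 := by
      rw [← hAZ]
      exact_mod_cast hdA
    interval_cases κ
    · left
      apply hred2
      rw [pow_one] at hX
      have h1 := typeA1 hX hG
      exact boundQ (s := 1) (Or.inl rfl) hp5 ha1 hM1 (by rw [one_mul]; exact h1)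
    · left
      apply hred2
      have h1 := typeA2 hX hG
      exact boundQ (s := 1) (Or.inl rfl) hp5 ha1 hM1 (by rw [one_mul]; exact h1)
    · have h1 := typeA3 hX hG
      by_cases hsp : a = 1 ∧ M = 1
      · obtain ⟨hsa, hsM⟩ := hsp
        have hb1 : 1 ≤ b := by omega
        rw [hsM, one_mul] at hS
        rcases Nat.lt_or_ge b 2 with hb2 | hb2
        · exfalso
          have hb' : b = 1 := by omega
          rw [hb'] at hS
          simp only [Finset.sum_range_succ, Finset.range_zero, Finset.sum_empty] at hS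
          norm_num at hS
          rw [hsa, pow_one] at hdA
          exact special hq5 (by rw [← hS]; ring) hdA
        · right
          have h2 : p ^ 4 ≤ q ^ 3 := by
            rw [← hS]
            exact (Nat.pow_le_pow_right (by omega) (by omega)).trans last_le
          have h4 : p ≤ q := by
            by_contra hcon
            have h6 : q ^ 4 ≤ p ^ 4 := Nat.pow_le_pow_left (by omega) 4
            have h7 : q ^ 3 < q ^ 4 := Nat.pow_lt_pow_right (by omega) (by norm_num)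
            omega
          rw [hsM, hsa, h0, zero_add, pow_one, one_mul] at hdual
          have h6 : 2 * q ^ 3 ≤ 3 * (q * m) :=
            hdual.trans (Nat.mul_le_mul_left _ (Nat.mul_le_mul_right _ h4))
          have h7 : q * (2 * q ^ 2) ≤ q * (3 * m) := by
            calc q * (2 * q ^ 2) = 2 * q ^ 3 := by ring
              _ ≤ 3 * (q * m) := h6
              _ = _ := by ring
          have h8 := Nat.le_of_mul_le_mul_left h7 (by omega)
          omega
      · left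
        apply hred2
        refine bound3 hp5 ha1 ?_ (fun h => fun h' => hsp ⟨h, h'⟩) hM1
        have e : ((p : ℤ) - 1) * M + 1 = (((p - 1) * M + 1 : ℕ) : ℤ) := by
          rw [Nat.cast_add, Nat.cast_mul, Nat.cast_sub (by omega)]
          push_cast
          ring
        rw [e] at h1
        exact_mod_cast h1
  · have hG : ((p ^ a : ℕ) : ℤ) ∣ (q : ℤ) ^ 2 - q + 1 := by
      rw [← hBZ]
      exact_mod_cast hdB
    left
    apply hred2
    interval_cases κ
    · rw [pow_one] at hX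
      have h1 := typeB1 hX hG
      refine boundQ (s := -1) (Or.inr rfl) hp5 ha1 hM1 ?_
      have e : (((p : ℤ) - 1) * M) ^ 2 - -1 * (((p : ℤ) - 1) * M) + 1 =
          (((p : ℤ) - 1) * M) ^ 2 + (((p : ℤ) - 1) * M) + 1 := by ring
      rw [e]
      exact h1
    · have h1 := typeB2 hX hG
      exact boundQ (s := 1) (Or.inl rfl) hp5 ha1 hM1 (by rw [one_mul]; exact h1)
    · have h1 := typeB3 hX hG
      exact bound4 hp5 ha1 h1 hM1

end Pool.Agent.Lib.MP_4eb2ef_nt
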