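import Pool.Agent.Lib.MP_4eb2ef_nt.PellEx

/-! Local bounds for odd perfect numbers with exponent five at the special prime. -/

set_option autoImplicit false

namespace Pool.Agent.Lib.MP_4eb2ef_nt

/-! ### Types of congruences -/

section types

variable {D X q : ℤ}

lemma typeA1 (hF : D ∣ X * q + 1) (hG : D ∣ q ^ 2 + q + 1) : D ∣ X ^ 2 - X + 1 := by
  obtain ⟨c, hc⟩ := hF
  obtain ⟨d, hd⟩ := hG
  refine ⟨c * q ^ 2 * (X - q ^ 2 - 1) + d * (-X * (q - 1) * (X - q ^ 2 - 1) + (q ^ 2 - q + 1)), ?_⟩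
  linear_combination (q ^ 2 * (X - q ^ 2 - 1)) * hc +
    (-X * (q - 1) * (X - q ^ 2 - 1) + (q ^ 2 - q + 1)) * hd

lemma typeA2 (hF : D ∣ X * q ^ 2 + 1) (hG : D ∣ q ^ 2 + q + 1) : D ∣ X ^ 2 - X + 1 := by
  obtain ⟨c, hc⟩ := hF
  obtain ⟨d, hd⟩ := hG
  refine ⟨c * q * (X - q - 1) + d * (-X * (q - 1) * (X - q - 1) + 1), ?_⟩
  linear_combination (q * (X - q - 1)) * hc + (-X * (q - 1) * (X - q - 1) + 1) * hd

lemma typeA3 (hF : D ∣ X * q ^ 3 + 1) (hG : D ∣ q ^ 2 + q + 1) : D ∣ X + 1 := by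
  obtain ⟨c, hc⟩ := hF
  obtain ⟨d, hd⟩ := hG
  refine ⟨c - d * (X * (q - 1)), ?_⟩
  linear_combination hc - (X * (q - 1)) * hd

lemma typeB1 (hF : D ∣ X * q + 1) (hG : D ∣ q ^ 2 - q + 1) : D ∣ X ^ 2 + X + 1 := by
  obtain ⟨c, hc⟩ := hF
  obtain ⟨d, hd⟩ := hG
  refine ⟨-c * q ^ 2 * (X + q ^ 2 + 1) + d * (X * (q + 1) * (X + q ^ 2 + 1) + (q ^ 2 + q + 1)), ?_⟩
  linear_combination (-q ^ 2 * (X + q ^ 2 + 1)) * hc +
    (X * (q + 1) * (X + q ^ 2 + 1) + (q ^ 2 + q + 1)) * hd

lemma typeB2 (hF : D ∣ X * q ^ 2 + 1) (hG : D ∣ q ^ 2 - q + 1) : D ∣ X ^ 2 - X + 1 := by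
  obtain ⟨c, hc⟩ := hF
  obtain ⟨d, hd⟩ := hG
  refine ⟨-c * q * (X + q - 1) + d * (X * (q + 1) * (X + q - 1) + 1), ?_⟩
  linear_combination (-q * (X + q - 1)) * hc + (X * (q + 1) * (X + q - 1) + 1) * hd

lemma typeB3 (hF : D ∣ X * q ^ 3 + 1) (hG : D ∣ q ^ 2 - q + 1) : D ∣ X - 1 := by
  obtain ⟨c, hc⟩ := hF
  obtain ⟨d, hd⟩ := hG
  refine ⟨-c + d * (X * (q + 1)), ?_⟩
  linear_combination -hc + (X * (q + 1)) * hd

end types

/-! ### Bounds -/

lemma noSol {r c : ℤ} (hr4 : 4 ≤ r) (hc1 : 1 ≤ c) (h6 : (r * c - 3) ^ 2 = r + 3 + c) :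
    False := by
  have h7 : r + c ≤ r * c + 1 := by nlinarith
  have h8 : r * c ≤ 6 := by
    by_contra hcon
    have h9 : 7 ≤ r * c := by linarith [Int.add_one_le_iff.2 (not_le.1 hcon)]
    nlinarith
  have h9 : c ≤ 1 := by
    by_contra hcon
    have h10 : 2 ≤ c := by linarith [Int.add_one_le_iff.2 (not_le.1 hcon)]
    nlinarith
  have h10 : c = 1 := le_antisymm h9 hc1
  rw [h10] at h6 h8
  have h11 : r ≤ 6 := by linarith
  interval_cases r <;> norm_num at h6

section bounds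

variable {p a M : ℕ}

/-- `X + 1`, `X = (p - 1) M` -/
lemma bound3 (hp : 5 ≤ p) (ha : 1 ≤ a) (h : p ^ a ∣ (p - 1) * M + 1) (hM : a = 1 → M ≠ 1)
    (hM0 : 1 ≤ M) : p ^ a ≤ 5 * M ^ 4 := by
  obtain ⟨r, hr⟩ : ∃ r, p = r + 1 := ⟨p - 1, by omega⟩
  have hpr : p - 1 = r := by omega
  rw [hpr] at h
  rcases eq_or_lt_of_le ha with h1 | h1
  · -- a = 1
    have hM1 := hM h1.symm
    rw [← h1, pow_one] at h ⊢
    -- p ∣ M - 1
    have h2 : p ∣ M - 1 := by
      have h3 : (p : ℤ) ∣ (r : ℤ) * M + 1 := by exact_mod_cast h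
      have h4 : (p : ℤ) ∣ (M : ℤ) - 1 := by
        have h5 : (p : ℤ) ∣ (p : ℤ) * M := ⟨M, rfl⟩
        have h6 := dvd_sub h5 h3
        have e : (p : ℤ) * M - ((r : ℤ) * M + 1) = M - 1 := by
          rw [hr]
          push_cast
          ring
        rwa [e] at h6
      have h7 : ((M - 1 : ℕ) : ℤ) = (M : ℤ) - 1 := by
        rw [Nat.cast_sub hM0]
        simp
      rw [← h7] at h4
      exact_mod_cast h4
    have h3 : p ≤ M - 1 := Nat.le_of_dvd (by omega) h2
    have h4 : M ≤ M ^ 4 := Nat.le_self_pow (by norm_num) M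
    omega
  · -- a ≥ 2
    have h2 : p ^ a ≤ r * M + 1 := Nat.le_of_dvd (by omega) h
    obtain ⟨b, hb⟩ : ∃ b, a = b + 2 := ⟨a - 2, by omega⟩
    have h3 : p ^ (b + 1) ≤ M := by
      by_contra hcon
      have h4 : M + 1 ≤ p ^ (b + 1) := by omega
      have h5 : p ^ a = p * p ^ (b + 1) := by
        rw [hb]
        ring
      have h6 : p * (M + 1) ≤ p * p ^ (b + 1) := Nat.mul_le_mul_left _ h4
      rw [h5] at h2
      rw [hr] at h6 h2
      nlinarith
    have h4 : (p ^ (b + 1)) ^ 4 ≤ M ^ 4 := Nat.pow_le_pow_left h3 4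
    have h5 : p ^ a ≤ (p ^ (b + 1)) ^ 4 := by
      rw [← pow_mul]
      exact Nat.pow_le_pow_right (by omega) (by omega)
    omega

/-- `X - 1`, `X = (p - 1) M` -/
lemma bound4 (hp : 5 ≤ p) (ha : 1 ≤ a) (h : ((p ^ a : ℕ) : ℤ) ∣ ((p : ℤ) - 1) * M - 1)
    (hM0 : 1 ≤ M) : p ^ a ≤ 5 * M ^ 4 := by
  have hX : (0 : ℤ) < ((p : ℤ) - 1) * M - 1 := by
    have : (5 : ℤ) ≤ p := by exact_mod_cast hp
    have : (1 : ℤ) ≤ M := by exact_mod_cast hM0
    nlinarith
  rcases eq_or_lt_of_le ha with h1 | h1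
  · rw [← h1, pow_one] at h ⊢
    have h2 : (p : ℤ) ∣ (M : ℤ) + 1 := by
      have h5 : (p : ℤ) ∣ (p : ℤ) * M := ⟨M, rfl⟩
      have h6 := dvd_sub h5 h
      have e : (p : ℤ) * M - (((p : ℤ) - 1) * M - 1) = M + 1 := by ring
      rwa [e] at h6
    have h3 : p ∣ M + 1 := by exact_mod_cast h2
    have h4 : p ≤ M + 1 := Nat.le_of_dvd (by omega) h3
    have h5 : M ≤ M ^ 4 := Nat.le_self_pow (by norm_num) M
    omega
  · have h2 := Int.le_of_dvd hX h
    obtain ⟨b, hb⟩ : ∃ b, a = b + 2 := ⟨a - 2, by omega⟩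
    have h3 : p ^ (b + 1) ≤ M := by
      by_contra hcon
      have h4 : M + 1 ≤ p ^ (b + 1) := by omega
      have h5 : p ^ a = p * p ^ (b + 1) := by
        rw [hb]
        ring
      have h6 : p * (M + 1) ≤ p * p ^ (b + 1) := Nat.mul_le_mul_left _ h4
      rw [h5] at h2
      have h7 : ((p * (M + 1) : ℕ) : ℤ) ≤ ((p * p ^ (b + 1) : ℕ) : ℤ) := by exact_mod_cast h6
      push_cast at h2 h7
      nlinarith
    have h4 : (p ^ (b + 1)) ^ 4 ≤ M ^ 4 := Nat.pow_le_pow_left h3 4
    have h5 : p ^ a ≤ (p ^ (b + 1)) ^ 4 := by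
      rw [← pow_mul]
      exact Nat.pow_le_pow_right (by omega) (by omega)
    omega

/-- the common part of the two quadratic cases: `X² ∓ X + 1 = p^a t`, `s = ±1` -/
lemma boundQ {s : ℤ} (hs : s = 1 ∨ s = -1) (hp : 5 ≤ p) (ha : 1 ≤ a) (hM0 : 1 ≤ M)
    (h : ((p ^ a : ℕ) : ℤ) ∣ (((p : ℤ) - 1) * M) ^ 2 - s * (((p : ℤ) - 1) * M) + 1) :
    p ^ a ≤ 5 * M ^ 4 := by
  have hpZ : (5 : ℤ) ≤ p := by exact_mod_cast hp
  have hMZ : (1 : ℤ) ≤ M := by exact_mod_cast hM0
  set r : ℤ := (p : ℤ) - 1 with hr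
  have hr4 : 4 ≤ r := by linarith
  set X : ℤ := r * M with hX
  have hX4 : 4 ≤ X := by nlinarith
  have hs1 : -1 ≤ s ∧ s ≤ 1 := by rcases hs with h | h <;> rw [h] <;> norm_num
  have hpos : 0 < X ^ 2 - s * X + 1 := by
    rcases hs with h | h <;> rw [h] <;> nlinarith
  have hup : X ^ 2 - s * X + 1 ≤ 2 * X ^ 2 := by
    rcases hs with h | h <;> rw [h] <;> nlinarith
  have hM4 : M ≤ M ^ 4 := Nat.le_self_pow (by norm_num) M
  rcases eq_or_lt_of_le ha with h1 | h1
  · -- a = 1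
    rw [← h1, pow_one] at h ⊢
    have h2 : (p : ℤ) ∣ (M : ℤ) ^ 2 + s * M + 1 := by
      have h5 : (p : ℤ) ∣ (p : ℤ) * ((p - 2) * M ^ 2 - s * M) := ⟨_, rfl⟩
      have h6 := dvd_sub h h5
      have e : X ^ 2 - s * X + 1 - (p : ℤ) * ((p - 2) * M ^ 2 - s * M) =
          (M : ℤ) ^ 2 + s * M + 1 := by
        rw [hX, hr]
        ring
      rwa [e] at h6
    have h3 : (0 : ℤ) < (M : ℤ) ^ 2 + s * M + 1 := by
      rcases hs with h | h <;> rw [h] <;> nlinarith
    have h4 := Int.le_of_dvd h3 h2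
    have h5 : (M : ℤ) ^ 2 + s * M + 1 ≤ 3 * M ^ 2 := by
      rcases hs with h | h <;> rw [h] <;> nlinarith
    have h6 : (p : ℤ) ≤ 3 * M ^ 2 := h4.trans h5
    have h7 : p ≤ 3 * M ^ 2 := by exact_mod_cast h6
    have h8 : M ^ 2 ≤ M ^ 4 := Nat.pow_le_pow_right hM0 (by norm_num)
    omega
  · -- a ≥ 2
    obtain ⟨t, ht⟩ := h
    have hpa : (0 : ℤ) < ((p ^ a : ℕ) : ℤ) := by positivity
    have ht0 : 0 < t := by
      by_contra hcon
      have : ((p ^ a : ℕ) : ℤ) * t ≤ 0 := mul_nonpos_of_nonneg_of_nonpos hpa.le (by linarith)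
      linarith
    -- t ≡ 1 mod r
    have htr : r ∣ t - 1 := by
      have h2 : r ∣ ((p ^ a : ℕ) : ℤ) - 1 := by
        have := sub_one_dvd_pow_sub_one (p : ℤ) a
        push_cast
        exact this
      have h3 : r ∣ X := ⟨M, rfl⟩
      have e : t - 1 = X * (X - s) - (((p ^ a : ℕ) : ℤ) - 1) * t := by
        linear_combination -ht
      rw [e]
      exact dvd_sub (h3.mul_right _) (h2.mul_right _)
    obtain ⟨b, hb⟩ : ∃ b, a = b + 2 := ⟨a - 2, by omega⟩
    rcases eq_or_ne t 1 with ht1 | ht1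
    · -- t = 1
      rw [ht1, mul_one] at ht
      rcases Nat.lt_or_ge b 2 with hb2 | hb2
      · -- a = 2 or a = 3
        interval_cases b
        · -- a = 2 : between squares
          exfalso
          rw [hb] at ht
          push_cast at ht
          have hpX : (0 : ℤ) < p := by linarith
          rcases hs with h | h
          · rw [h] at ht
            have h2 : (p : ℤ) < X := by
              by_contra hcon
              have : X ≤ p := by linarith
              nlinarith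
            have h3 : X - 1 < (p : ℤ) := by
              by_contra hcon
              have : (p : ℤ) ≤ X - 1 := by linarith
              nlinarith
            linarith [Int.add_one_le_iff.2 h3, Int.add_one_le_iff.2 h2]
          · rw [h] at ht
            have h2 : X < (p : ℤ) := by
              by_contra hcon
              have : (p : ℤ) ≤ X := by linarith
              nlinarith
            have h3 : (p : ℤ) < X + 1 := by
              by_contra hcon
              have : X + 1 ≤ (p : ℤ) := by linarith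
              nlinarith
            linarith [Int.add_one_le_iff.2 h3, Int.add_one_le_iff.2 h2]
        · -- a = 3
          rw [hb] at ht
          push_cast at ht
          have hpr : (p : ℤ) = r + 1 := by rw [hr]; ring
          -- M² r - s M = r² + 3 r + 3
          have h2 : (M : ℤ) ^ 2 * r - s * M = r ^ 2 + 3 * r + 3 := by
            have h3 : r * ((M : ℤ) ^ 2 * r - s * M) = r * (r ^ 2 + 3 * r + 3) := by
              rw [hX, hpr] at ht
              linear_combination ht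
            exact mul_left_cancel₀ (by linarith) h3
          rw [hb]
          have hrne : (r : ℤ) ≠ 0 := by linarith
          set c : ℤ := (M : ℤ) ^ 2 - r - 3 with hc
          have h3 : 3 + s * M = r * c := by rw [hc]; linear_combination -h2
          have h4 : (M : ℤ) ^ 2 = r + 3 + c := by rw [hc]; ring
          rcases hs with h | h
          · exfalso
            rw [h, one_mul] at h3
            have h5 : 1 ≤ c := by
              by_contra hcon
              have : r * c ≤ 0 := mul_nonpos_of_nonneg_of_nonpos (by linarith) (by linarith)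
              linarith
            have h6 : (M : ℤ) = r * c - 3 := by linarith
            rw [h6] at h4
            exact noSol hr4 h5 h4
          · rw [h] at h3
            have h6 : (M : ℤ) = -(r * c - 3) := by linarith
            rcases lt_trichotomy c 0 with h5 | h5 | h5
            · exfalso
              have h7 : r * c ≤ -r := by nlinarith
              have h8 : (r : ℤ) + 3 ≤ M := by linarith
              nlinarith
            · rw [h5] at h6 h4
              have h7 : (M : ℤ) = 3 := by linarith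
              rw [h7] at h4
              have h8 : (p : ℤ) = 7 := by linarith
              have h9 : p = 7 := by exact_mod_cast h8
              have h10 : M = 3 := by exact_mod_cast h7
              rw [h9, h10]
              norm_num
            · exfalso
              rw [h6, neg_sq] at h4
              exact noSol hr4 h5 h4
      · -- a ≥ 4
        have h2 : ((p ^ a : ℕ) : ℤ) ≤ 2 * X ^ 2 := by rw [← ht]; exact hup
        have h3 : X ≤ p * M := by rw [hX, hr]; nlinarith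
        have h4 : X ^ 2 ≤ (p * M) ^ 2 := pow_le_pow_left₀ (by linarith) h3 2
        have h5 : ((p ^ a : ℕ) : ℤ) ≤ ((2 * (p * M) ^ 2 : ℕ) : ℤ) := by
          push_cast at h2 ⊢
          linarith
        have h6 : p ^ a ≤ 2 * (p * M) ^ 2 := by exact_mod_cast h5
        have h7 : p ^ b ≤ 2 * M ^ 2 := by
          have e1 : p ^ a = p ^ 2 * p ^ b := by rw [hb]; ring
          have e2 : 2 * (p * M) ^ 2 = p ^ 2 * (2 * M ^ 2) := by ring
          rw [e1, e2] at h6
          exact Nat.le_of_mul_le_mul_left h6 (by positivity)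
        have h8 : (p ^ b) ^ 2 ≤ (2 * M ^ 2) ^ 2 := Nat.pow_le_pow_left h7 2
        have h9 : p ^ a ≤ (p ^ b) ^ 2 := by
          rw [← pow_mul]
          exact Nat.pow_le_pow_right (by omega) (by omega)
        have e : (2 * M ^ 2) ^ 2 = 4 * M ^ 4 := by ring
        omega
    · -- t ≥ p
      have h2 : (p : ℤ) ≤ t := by
        have h3 := Int.le_of_dvd (by omega) htr
        linarith
      have h3 : ((p ^ a : ℕ) : ℤ) * p ≤ 2 * X ^ 2 := by
        calc ((p ^ a : ℕ) : ℤ) * p ≤ ((p ^ a : ℕ) : ℤ) * t := by gcongr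
          _ = X ^ 2 - s * X + 1 := ht.symm
          _ ≤ _ := hup
      have h4 : X ≤ p * M := by rw [hX, hr]; nlinarith
      have h5 : X ^ 2 ≤ (p * M) ^ 2 := pow_le_pow_left₀ (by linarith) h4 2
      have h6 : ((p ^ a * p : ℕ) : ℤ) ≤ ((2 * (p * M) ^ 2 : ℕ) : ℤ) := by
        push_cast at h3 ⊢
        linarith
      have h7 : p ^ a * p ≤ 2 * (p * M) ^ 2 := by exact_mod_cast h6
      have h8 : p ^ (b + 1) ≤ 2 * M ^ 2 := by
        have e1 : p ^ a * p = p ^ 2 * p ^ (b + 1) := by rw [hb]; ring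
        have e2 : 2 * (p * M) ^ 2 = p ^ 2 * (2 * M ^ 2) := by ring
        rw [e1, e2] at h7
        exact Nat.le_of_mul_le_mul_left h7 (by positivity)
      have h9 : (p ^ (b + 1)) ^ 2 ≤ (2 * M ^ 2) ^ 2 := Nat.pow_le_pow_left h8 2
      have h10 : p ^ a ≤ (p ^ (b + 1)) ^ 2 := by
        rw [← pow_mul]
        exact Nat.pow_le_pow_right (by omega) (by omega)
      have e : (2 * M ^ 2) ^ 2 = 4 * M ^ 4 := by ring
      omega

end bounds

/-- `p² + p + 1 = q³` is impossible if `p ∣ q² + q + 1` -/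
lemma special {p q : ℕ} (hq : 5 ≤ q) (h : p ^ 2 + p + 1 = q ^ 3) (hd : p ∣ q ^ 2 + q + 1) :
    False := by
  obtain ⟨w, hw⟩ := hd
  obtain ⟨r, hr⟩ : ∃ r, q = r + 1 := ⟨q - 1, by omega⟩
  have hp0 : 0 < p := by
    rcases Nat.eq_zero_or_pos p with h0 | h0
    · rw [h0] at hw
      simp at hw
    · exact h0
  have h1 : p * (p + 1) = p * (r * w) := by
    have h2 : p * (p + 1) + 1 = r * (q ^ 2 + q + 1) + 1 := by
      rw [hr] at h ⊢
      nlinarith
    rw [hw] at h2
    have h3 : r * (p * w) = p * (r * w) := by ring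
    omega
  have h2 : p + 1 = r * w := Nat.eq_of_mul_eq_mul_left hp0 h1
  -- q² + q + 1 = (r w - 1) w
  have h3 : (q : ℤ) ^ 2 + q + 1 = (r * w - 1) * w := by
    have h4 : ((q ^ 2 + q + 1 : ℕ) : ℤ) = ((p * w : ℕ) : ℤ) := by rw [hw]
    have h5 : ((p + 1 : ℕ) : ℤ) = ((r * w : ℕ) : ℤ) := by rw [h2]
    push_cast at h4 h5
    rw [h4]
    have : (p : ℤ) = r * w - 1 := by linarith
    rw [this]
  have hrq : (q : ℤ) = r + 1 := by exact_mod_cast hr
  have hr4 : (4 : ℤ) ≤ r := by
    have : 4 ≤ r := by omega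
    exact_mod_cast this
  have hw0 : (0 : ℤ) < w := by
    have : 0 < w := by
      rcases Nat.eq_zero_or_pos w with h0 | h0
      · rw [h0, mul_zero] at hw
        simp at hw
      · exact h0
    exact_mod_cast this
  rw [hrq] at h3
  -- r divides w + 3
  have h5 : (r : ℤ) ∣ w + 3 := ⟨w ^ 2 - r - 3, by linear_combination h3⟩
  obtain ⟨c, hc⟩ := h5
  have hc1 : 1 ≤ c := by
    by_contra hcon
    have : (r : ℤ) * c ≤ 0 := mul_nonpos_of_nonneg_of_nonpos (by linarith) (by linarith)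
    linarith
  -- w = r c - 3
  have hwc : (w : ℤ) = r * c - 3 := by linarith
  have hwr : (r : ℤ) - 3 ≤ w := by nlinarith
  have h6 : (w : ℤ) ^ 2 = r + 3 + c := by
    have h7 : (r : ℤ) * (w ^ 2 - r - 3) = r * c := by rw [← hc]; linear_combination -h3
    have h8 := mul_left_cancel₀ (by linarith : (r : ℤ) ≠ 0) h7
    linarith
  rw [hwc] at h6
  exact noSol hr4 hc1 h6

end Pool.Agent.Lib.MP_4eb2ef_nt
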