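import Mathlib

/-! A special case of the equation `(x^c - 1)/(x - 1) = y^2`, through Pell's equation. -/

set_option autoImplicit false

namespace Pool.Agent.Lib.MP_4eb2ef_nt

open Pell

section

variable {a : ℕ} (a1 : 1 < a)

/-- signed solution -/
def zz (n : ℕ) : ℤ := (-1) ^ (n + 1) * (yn a1 n : ℤ)

lemma zz_zero : zz a1 0 = 0 := by simp [zz]

lemma zz_one : zz a1 1 = 1 := by simp [zz]

lemma zz_succ_succ (n : ℕ) : zz a1 (n + 2) = -2 * a * zz a1 (n + 1) - zz a1 n := by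
  have h := yn_succ_succ a1 n
  have h' : (yn a1 (n + 2) : ℤ) = 2 * a * yn a1 (n + 1) - yn a1 n := by
    have : ((yn a1 (n + 2) + yn a1 n : ℕ) : ℤ) = ((2 * a * yn a1 (n + 1) : ℕ) : ℤ) := by rw [h]
    push_cast at this
    linarith
  unfold zz
  rw [h']
  ring

/-- first order congruence -/
lemma zz_mod {d : ℤ} (hd : d = a + 1) (n : ℕ) : d ∣ zz a1 n - n := by
  have key : ∀ n, d ∣ zz a1 n - n ∧ d ∣ zz a1 (n + 1) - (n + 1 : ℕ) := by
    intro n
    induction n with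
    | zero => simp [zz_zero, zz_one]
    | succ n ih =>
      obtain ⟨⟨x, hx⟩, y, hy⟩ := ih
      refine ⟨⟨y, hy⟩, ⟨2 * y - x - 2 * zz a1 (n + 1), ?_⟩⟩
      rw [show n + 1 + 1 = n + 2 from rfl, zz_succ_succ]
      push_cast at hy ⊢
      have ha : (a : ℤ) = d - 1 := by linarith
      rw [ha]
      linear_combination 2 * hy - hx
  exact (key n).1

/-- second order congruence -/
lemma zz_mod2 {d : ℤ} (hd : d = a + 1) (n : ℕ) :
    d ^ 2 ∣ 3 * zz a1 n - 3 * n + d * ((n : ℤ) ^ 3 - n) := by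
  have key : ∀ n : ℕ, d ^ 2 ∣ 3 * zz a1 n - 3 * n + d * ((n : ℤ) ^ 3 - n) ∧
      d ^ 2 ∣ 3 * zz a1 (n + 1) - 3 * (n + 1 : ℕ) + d * (((n + 1 : ℕ) : ℤ) ^ 3 - (n + 1 : ℕ)) := by
    intro n
    induction n with
    | zero => simp [zz_zero, zz_one]
    | succ n ih =>
      obtain ⟨⟨x, hx⟩, y, hy⟩ := ih
      refine ⟨⟨y, hy⟩, ⟨2 * (1 - d) * y - x + 2 * (((n : ℤ) + 1) ^ 3 - (n + 1)), ?_⟩⟩
      rw [show n + 1 + 1 = n + 2 from rfl, zz_succ_succ]
      push_cast at hy ⊢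
      have ha : (a : ℤ) = d - 1 := by linarith
      rw [ha]
      linear_combination 2 * (1 - d) * hy - hx
  exact (key n).1

lemma yn_dvd_iff_zz (m : ℤ) (n : ℕ) : m ∣ (yn a1 n : ℤ) ↔ m ∣ zz a1 n := by
  unfold zz
  rcases neg_one_pow_eq_or ℤ (n + 1) with h | h
  · rw [h, one_mul]
  · rw [h, neg_one_mul, dvd_neg]

end

/-- `(P ^ c - 1) / (P - 1)` is not the square of a prime for odd `c ≥ 3` and odd prime powers
`P ≠ 3`. -/
theorem pell_ex {p α f q : ℕ} (hp : p.Prime) (hp2 : p ≠ 2) (hα : 1 ≤ α) (h3 : p ^ α ≠ 3)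
    (hf : 1 ≤ f) (hq : q.Prime) (h : p ^ α * (p ^ f) ^ 2 = (p ^ α - 1) * q ^ 2 + 1) : False := by
  set P := p ^ α with hP
  have hp3 : 3 ≤ p := by
    have := hp.two_le
    omega
  have hPp : p ∣ P := dvd_pow_self p (by omega)
  have hPpos : 0 < P := by positivity
  have hPge : p ≤ P := Nat.le_of_dvd hPpos hPp
  have hP5 : 5 ≤ P := by
    have hodd : Odd P := (hp.odd_of_ne_two hp2).pow
    rcases hodd with ⟨k, hk⟩
    omega
  set a := 2 * P - 1 with ha
  have a1 : 1 < a := by omega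
  have ha9 : 9 ≤ a := by omega
  set u := p ^ f with hu
  have hu0 : 0 < u := by positivity
  -- the solution of Pell's equation
  obtain ⟨n, -, hn⟩ : ∃ n, 2 * P * u ^ 2 - 1 = xn a1 n ∧ u * q = yn a1 n := by
    apply eq_pell
    have h1 : 1 ≤ 2 * P * u ^ 2 := by
      have : 0 < 2 * P * u ^ 2 := by positivity
      omega
    obtain ⟨P', hP'⟩ : ∃ P', P = P' + 1 := ⟨P - 1, by omega⟩
    have haP : a = 2 * P' + 1 := by omega
    have hd2 : a * a - 1 = 4 * P * P' := by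
      have : a * a = 4 * P * P' + 1 := by
        rw [haP, hP']
        ring
      omega
    show (2 * P * u ^ 2 - 1) * (2 * P * u ^ 2 - 1) - (a * a - 1) * (u * q) * (u * q) = 1
    rw [hd2]
    obtain ⟨X, hX⟩ : ∃ X, 2 * P * u ^ 2 = X + 1 := ⟨2 * P * u ^ 2 - 1, by omega⟩
    have hPP : P - 1 = P' := by omega
    rw [hPP] at h
    have hX' : 2 * P * u ^ 2 - 1 = X := by omega
    rw [hX']
    have h5 : X * X = 4 * P * P' * (u * q) * (u * q) + 1 := by
      have e3 : X + 1 = 2 * (P * u ^ 2) := by rw [← hX]; ring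
      rw [h] at e3
      have e4 : X = 2 * (P' * q ^ 2) + 1 := by omega
      have e5 : 4 * P * P' * (u * q) * (u * q) = 4 * (P * u ^ 2) * (P' * q ^ 2) := by ring
      rw [e5, h, e4]
      ring
    omega
  -- reductions
  have hdelta : ((2 * P : ℕ) : ℤ) = (a : ℤ) + 1 := by
    have : 2 * P = a + 1 := by omega
    rw [this]
    push_cast
    ring
  have hpd : (p : ℤ) ∣ ((2 * P : ℕ) : ℤ) := by
    have : p ∣ 2 * P := hPp.mul_left 2
    exact_mod_cast this
  have hpn : p ∣ n := by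
    have h1 : p ∣ yn a1 n := by
      rw [← hn]
      exact (dvd_pow_self p (by omega)).mul_right q
    have h2 : (p : ℤ) ∣ zz a1 n := (yn_dvd_iff_zz a1 _ n).1 (by exact_mod_cast h1)
    have h3 := hpd.trans (zz_mod a1 hdelta n)
    have h4 : (p : ℤ) ∣ (n : ℤ) := by
      have := dvd_sub h2 h3
      simpa using this
    exact_mod_cast h4
  -- the exact power of `p` in `y_p`
  have hzp : (p : ℤ) ^ 2 ∣ zz a1 p - p := by
    have h1 := zz_mod2 a1 hdelta p
    rcases eq_or_lt_of_le hp3 with h5 | h5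
    · -- p = 3
      have hα2 : 2 ≤ α := by
        by_contra hcon
        have : α = 1 := by omega
        apply h3
        rw [hP, this, ← h5]
        norm_num
      have h9 : 9 ∣ P := by
        rw [hP, ← h5]
        exact Dvd.dvd.trans (by norm_num) (pow_dvd_pow 3 hα2)
      obtain ⟨c, hc⟩ := h9
      obtain ⟨e, he⟩ := h1
      rw [← h5] at he ⊢
      rw [hc] at he
      push_cast at he ⊢
      refine ⟨12 * c ^ 2 * e - 16 * c, ?_⟩
      linarith [he]
    · have hp5 : 5 ≤ p := by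
        have : p ≠ 4 := by
          rintro rfl
          norm_num at hp
        omega
      have h6 : (p : ℤ) ^ 2 ∣ ((2 * P : ℕ) : ℤ) ^ 2 := pow_dvd_pow_of_dvd hpd 2
      have h7 : (p : ℤ) ^ 2 ∣ ((2 * P : ℕ) : ℤ) * ((p : ℤ) ^ 3 - p) := by
        rw [sq]
        exact mul_dvd_mul hpd ⟨(p : ℤ) ^ 2 - 1, by ring⟩
      have h8 : (p : ℤ) ^ 2 ∣ 3 * (zz a1 p - p) := by
        have := dvd_sub (h6.trans h1) h7
        have e : 3 * zz a1 p - 3 * (p : ℤ) + ((2 * P : ℕ) : ℤ) * ((p : ℤ) ^ 3 - p) -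
            ((2 * P : ℕ) : ℤ) * ((p : ℤ) ^ 3 - p) = 3 * (zz a1 p - p) := by ring
        rwa [e] at this
      have hcop : IsCoprime ((p : ℤ) ^ 2) 3 := by
        apply IsCoprime.pow_left
        rw [show (3 : ℤ) = ((3 : ℕ) : ℤ) by norm_num, Nat.isCoprime_iff_coprime]
        rw [Nat.coprime_primes hp Nat.prime_three]
        omega
      exact hcop.dvd_of_dvd_mul_left h8
  have hyp : p ∣ yn a1 p := by
    have h1 : (p : ℤ) ∣ zz a1 p := by
      have h2 : (p : ℤ) ∣ zz a1 p - p := (dvd_pow_self _ (by norm_num)).trans hzp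
      have := dvd_add h2 (dvd_refl (p : ℤ))
      simpa using this
    exact_mod_cast (yn_dvd_iff_zz a1 _ p).2 h1
  have hyp2 : ¬ p ^ 2 ∣ yn a1 p := by
    intro h1
    have h2 : (p : ℤ) ^ 2 ∣ zz a1 p := (yn_dvd_iff_zz a1 _ p).1 (by exact_mod_cast h1)
    have h3 : (p : ℤ) ^ 2 ∣ (p : ℤ) := by
      have := dvd_sub h2 hzp
      simpa using this
    have h4 : p ^ 2 ∣ p := by exact_mod_cast h3
    have h5 := Nat.le_of_dvd hp.pos h4
    nlinarith
  obtain ⟨c, hc⟩ := hyp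
  have hpc : ¬ p ∣ c := by
    rintro ⟨e, he⟩
    apply hyp2
    rw [hc, he]
    exact ⟨e, by ring⟩
  -- `y_p = p q`
  obtain ⟨l, hl⟩ := hpn
  have hl0 : l ≠ 0 := by
    rintro rfl
    rw [hl, mul_zero, yn_zero] at hn
    have : 0 < u * q := Nat.mul_pos hu0 hq.pos
    omega
  have hylt : p < yn a1 p := by
    obtain ⟨p', hp'⟩ : ∃ p', p = p' + 1 := ⟨p - 1, by omega⟩
    rw [hp', yn_succ]
    have h1 := yn_ge_n a1 p'
    have h2 := x_pos a1 p'
    have : p' * 9 ≤ yn a1 p' * a := Nat.mul_le_mul h1 ha9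
    omega
  have hdiv : yn a1 p ∣ u * q := by
    rw [hn, hl]
    exact y_mul_dvd a1 p l
  have hcq : c = q := by
    have h1 : c ∣ u * q := (Dvd.intro_left p hc.symm).trans hdiv
    have h2 : Nat.Coprime c u := by
      rw [hu]
      exact ((Nat.Prime.coprime_iff_not_dvd hp).2 hpc).symm.pow_right f
    have h3 : c ∣ q := h2.dvd_of_dvd_mul_left h1
    rcases (Nat.dvd_prime hq).1 h3 with h4 | h4
    · rw [h4, mul_one] at hc
      omega
    · exact h4
  rw [hcq] at hc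
  have hpq : p ≠ q := by
    intro h1
    rw [hcq] at hpc
    exact hpc (by rw [h1])
  rcases Nat.lt_or_ge l 2 with hl2 | hl2
  · -- `l = 1`
    have hl1 : l = 1 := by omega
    rw [hl, hl1, mul_one, hc] at hn
    have hup : u = p := Nat.eq_of_mul_eq_mul_right hq.pos hn
    rw [hup] at h
    obtain ⟨P', hP'⟩ : ∃ P', P = P' + 1 := ⟨P - 1, by omega⟩
    have hPP : P - 1 = P' := by omega
    rw [hPP, hP'] at h
    -- (P' + 1) p² = P' q² + 1
    have hqp : p < q := by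
      by_contra hcon
      have h1 : q ^ 2 ≤ p ^ 2 := Nat.pow_le_pow_left (by omega) 2
      have h2 : P' * q ^ 2 ≤ P' * p ^ 2 := Nat.mul_le_mul_left _ h1
      have h3 : 9 ≤ p ^ 2 := by nlinarith
      nlinarith
    obtain ⟨e, he⟩ : ∃ e, q = p + 1 + e := ⟨q - (p + 1), by omega⟩
    have h6 : p ^ 2 = P' * (q ^ 2 - p ^ 2) + 1 := by
      have h7 : p ^ 2 ≤ q ^ 2 := Nat.pow_le_pow_left hqp.le 2
      rw [Nat.mul_sub]
      have : P' * p ^ 2 ≤ P' * q ^ 2 := Nat.mul_le_mul_left _ h7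
      have h8 : (P' + 1) * p ^ 2 = P' * p ^ 2 + p ^ 2 := by ring
      omega
    have h7 : 2 * p + 1 ≤ q ^ 2 - p ^ 2 := by
      have : (p + 1) ^ 2 ≤ q ^ 2 := Nat.pow_le_pow_left hqp 2
      have h8 : (p + 1) ^ 2 = p ^ 2 + (2 * p + 1) := by ring
      omega
    have h8 : P' * (2 * p + 1) ≤ P' * (q ^ 2 - p ^ 2) := Nat.mul_le_mul_left _ h7
    have h9 : p ≤ P' + 1 := by omega
    nlinarith
  · -- `l ≥ 2`
    obtain ⟨r, hr, hrl⟩ := Nat.exists_prime_and_dvd (n := l) (by omega)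
    have h1 : yn a1 (p * r) ∣ u * q := by
      rw [hn, hl]
      obtain ⟨s, hs⟩ := hrl
      rw [hs, ← mul_assoc]
      exact y_mul_dvd a1 (p * r) s
    obtain ⟨D, hD⟩ := y_mul_dvd a1 p r
    rw [hD, hc] at h1
    have h2 : D ∣ u := by
      have h3 : p * q * D ∣ u * q := h1
      have h4 : q * (p * D) ∣ q * u := by
        rw [show q * (p * D) = p * q * D by ring, mul_comm q u]
        exact h3
      exact (Dvd.intro_left p rfl).trans (Nat.dvd_of_mul_dvd_mul_left hq.pos h4)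
    rw [hu] at h2
    obtain ⟨j, -, hj⟩ := (Nat.dvd_prime_pow hp).1 h2
    have hxp : ¬ p ∣ xn a1 p := by
      intro h3
      have h4 : p ∣ Nat.gcd (xn a1 p) (yn a1 p) := Nat.dvd_gcd h3 (by rw [hc]; exact ⟨q, rfl⟩)
      rw [(xy_coprime a1 p)] at h4
      exact hp.one_lt.ne' (Nat.dvd_one.1 h4)
    have hmod := (xy_modEq_yn a1 p r).2
    rw [hD] at hmod
    -- `D ≡ r x^{r-1}` modulo `p²`
    have hmod2 : D ≡ r * xn a1 p ^ (r - 1) [MOD p ^ 2] := by
      have hy0 : 0 < yn a1 p := by omega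
      have h5 : yn a1 p * D ≡ yn a1 p * (r * xn a1 p ^ (r - 1)) [MOD yn a1 p * yn a1 p ^ 2] := by
        have e1 : yn a1 p * (r * xn a1 p ^ (r - 1)) = r * xn a1 p ^ (r - 1) * yn a1 p := by ring
        have e2 : yn a1 p * yn a1 p ^ 2 = yn a1 p ^ 3 := by ring
        rw [e1, e2]
        exact hmod
      have h6 := Nat.ModEq.mul_left_cancel' hy0.ne' h5
      refine h6.of_dvd ?_
      rw [hc]
      exact pow_dvd_pow_of_dvd ⟨q, rfl⟩ 2
    have hDle : D ≤ p := by
      rw [hj]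
      have hj1 : j ≤ 1 := by
        by_contra hcon
        have hj2 : p ^ 2 ∣ D := by
          rw [hj]
          exact pow_dvd_pow p (by omega)
        have h7 : p ^ 2 ∣ r * xn a1 p ^ (r - 1) := (hmod2.dvd_iff dvd_rfl).1 hj2
        have h8 : Nat.Coprime (p ^ 2) (xn a1 p ^ (r - 1)) :=
          ((Nat.Prime.coprime_iff_not_dvd hp).2 hxp).pow 2 (r - 1)
        have h9 : p ^ 2 ∣ r := h8.dvd_of_dvd_mul_right h7
        have h10 : p ∣ r := (dvd_pow_self p (by norm_num)).trans h9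
        have h11 : p = r := (Nat.prime_dvd_prime_iff_eq hp hr).1 h10
        rw [← h11] at h9
        have := Nat.le_of_dvd hp.pos h9
        nlinarith
      calc p ^ j ≤ p ^ 1 := Nat.pow_le_pow_right hp.pos hj1
        _ = p := pow_one p
    -- growth
    have hgrow : yn a1 (p * 2) ≤ yn a1 (p * r) :=
      (strictMono_y a1).monotone (Nat.mul_le_mul_left p hr.two_le)
    have hdbl : yn a1 (p * 2) = 2 * xn a1 p * yn a1 p := by
      rw [mul_two, yn_add]
      ring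
    have hxlt : p < xn a1 p := n_lt_xn a1 p
    have hy0 : 0 < yn a1 p := by omega
    have h12 : yn a1 p * D ≤ yn a1 p * p := Nat.mul_le_mul_left _ hDle
    rw [hdbl, hD] at hgrow
    have h13 : yn a1 p * p < yn a1 p * xn a1 p := (Nat.mul_lt_mul_left hy0).2 hxlt
    nlinarith

end Pool.Agent.Lib.MP_4eb2ef_nt
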